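import Pool.Agent.Work.MP_f82ddf_V.Interface

set_option autoImplicit false

/-! # THEOREM V, block DIF: surfaces and curves -/

open Pool.Agent.Work.MP_f82ddf_nt.DQ

namespace Pool.MPV

open MvPolynomial
open Pool.Agent.Work.MP_f82ddf_nt (PSpace HolomorphicOn complexPoints points KobayashiHyperbolic
  eval₂_smul_hom)
open Pool.ThmP (Mor OnX OnK tm)

theorem DIF_countable (K : Type) [Field K] [NumberField K] : Countable (AlgebraicClosure K) := by
  rw [← Cardinal.mk_le_aleph0_iff]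
  have h1 : Cardinal.mk K ≤ Cardinal.aleph0 := by
    refine (Algebra.IsAlgebraic.cardinalMk_le_max ℚ K).trans ?_
    simp
  refine (Algebra.IsAlgebraic.cardinalMk_le_max K (AlgebraicClosure K)).trans ?_
  exact max_le h1 le_rfl

/-- A homogeneous polynomial `D ≠ 0` in at most three variables with `D(y) = 0`: no two of the
quotients `y c / y c₀` are algebraically independent. -/
theorem DIF_alg {n e : ℕ} (hn2 : n ≤ 2) (y : Fin (n + 1) → Mer) (c₀ : Fin (n + 1))
    (hc₀ : y c₀ ≠ 0) (D : MvPolynomial (Fin (n + 1)) ℂ) (hD : D.IsHomogeneous e) (hD0 : D ≠ 0)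
    (h : eval₂ (algebraMap ℂ Mer) y D = 0) (t : Fin 2 → Mer)
    (htj : ∀ j, t j ∈ Set.range fun c => y c / y c₀) : ¬ AlgebraicIndependent ℂ t := by
  intro ht
  obtain ⟨a, ha⟩ := htj 0
  obtain ⟨b, hb⟩ := htj 1
  simp only at ha hb
  have hone : ∀ j, t j ≠ 1 := by
    intro j hj
    have h1 := ht.transcendental j
    rw [hj] at h1
    exact h1 isAlgebraic_one
  have hac : a ≠ c₀ := by
    rintro rfl
    exact hone 0 (by rw [← ha, div_self hc₀])
  have hbc : b ≠ c₀ := by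
    rintro rfl
    exact hone 1 (by rw [← hb, div_self hc₀])
  have hab : a ≠ b := by
    rintro rfl
    have h1 : t 0 = t 1 := by rw [← ha, ← hb]
    have h2 := ht.injective h1
    simp at h2
  have hcases : ∀ i : Fin (n + 1), i = c₀ ∨ i = a ∨ i = b := by
    intro i
    have h1 := a.2
    have h2 := b.2
    have h3 := c₀.2
    have h4 := i.2
    have h5 : (a : ℕ) ≠ c₀ := fun h => hac (Fin.ext h)
    have h6 : (b : ℕ) ≠ c₀ := fun h => hbc (Fin.ext h)
    have h7 : (a : ℕ) ≠ b := fun h => hab (Fin.ext h)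
    rcases (show (i : ℕ) = c₀ ∨ (i : ℕ) = a ∨ (i : ℕ) = b by omega) with h8 | h8 | h8
    · exact Or.inl (Fin.ext h8)
    · exact Or.inr (Or.inl (Fin.ext h8))
    · exact Or.inr (Or.inr (Fin.ext h8))
  let φ : Fin (n + 1) → MvPolynomial (Fin 2) ℂ := fun i =>
    if i = c₀ then 1 else if i = a then X 0 else X 1
  have hG : aeval t (aeval φ D) = 0 := by
    have h1 : aeval t (aeval φ D) = aeval (fun i => y i / y c₀) D := by
      have h2 : (aeval t).comp (aeval φ) = (aeval (fun i => y i / y c₀) :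
          MvPolynomial (Fin (n + 1)) ℂ →ₐ[ℂ] Mer) := by
        apply MvPolynomial.algHom_ext
        intro i
        rw [AlgHom.comp_apply, aeval_X, aeval_X]
        rcases hcases i with rfl | rfl | rfl
        · simp [φ, div_self hc₀]
        · simp [φ, hac, ha]
        · simp [φ, hbc, hab.symm, hb]
      exact congrArg (fun f => f D) h2
    rw [h1]
    have h3 : (fun i => y i / y c₀) = (y c₀)⁻¹ • y := by
      funext i
      rw [Pi.smul_apply, smul_eq_mul, div_eq_inv_mul]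
    rw [h3]
    have h4 : aeval ((y c₀)⁻¹ • y) D = eval₂ (algebraMap ℂ Mer) ((y c₀)⁻¹ • y) D := rfl
    rw [h4, eval₂_smul_hom hD, h, mul_zero]
  have hG0 : aeval φ D = 0 := by
    have h1 := (algebraicIndependent_iff.1 ht) _ hG
    exact h1
  have h1 : D * X c₀ ≠ 0 := mul_ne_zero hD0 (X_ne_zero c₀)
  obtain ⟨w, hw⟩ : ∃ w : Fin (n + 1) → ℂ, eval w (D * X c₀) ≠ 0 := by
    by_contra hcon
    push Not at hcon
    exact h1 (MvPolynomial.funext fun w => by rw [hcon w, map_zero])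
  rw [map_mul, eval_X] at hw
  have hw0 : w c₀ ≠ 0 := right_ne_zero_of_mul hw
  have hwD : eval w D ≠ 0 := left_ne_zero_of_mul hw
  have h2 : eval ((w c₀)⁻¹ • w) D ≠ 0 := by
    have h3 : eval ((w c₀)⁻¹ • w) D = eval₂ (RingHom.id ℂ) ((w c₀)⁻¹ • w) D := rfl
    rw [h3, eval₂_smul_hom hD]
    exact mul_ne_zero (pow_ne_zero _ (inv_ne_zero hw0)) hwD
  apply h2
  have h5 : (aeval ![(w c₀)⁻¹ * w a, (w c₀)⁻¹ * w b] : MvPolynomial (Fin 2) ℂ →ₐ[ℂ] ℂ)
      (aeval φ D) = aeval ((w c₀)⁻¹ • w) D := by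
    have h6 : ((aeval ![(w c₀)⁻¹ * w a, (w c₀)⁻¹ * w b] :
        MvPolynomial (Fin 2) ℂ →ₐ[ℂ] ℂ)).comp (aeval φ) = (aeval ((w c₀)⁻¹ • w) :
        MvPolynomial (Fin (n + 1)) ℂ →ₐ[ℂ] ℂ) := by
      apply MvPolynomial.algHom_ext
      intro i
      rw [AlgHom.comp_apply, aeval_X, aeval_X]
      rcases hcases i with rfl | rfl | rfl
      · simp [φ, inv_mul_cancel₀ hw0]
      · simp [φ, hac]
      · simp [φ, hbc, hab.symm]
    exact congrArg (fun f => f D) h6
  rw [hG0, map_zero] at h5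
  have h7 : aeval ((w c₀)⁻¹ • w) D = eval ((w c₀)⁻¹ • w) D := rfl
  rw [← h7, ← h5]

theorem p_DIF (h1 : Stmt_MPF) (hMPT : Pool.ThmP.Stmt_MPT) (hFIB : Pool.ThmP.Stmt_FIB)
    (hTRX : Pool.ThmP.Stmt_TRX) (hHOMR : Pool.ThmM0.Stmt_HOMR) : Stmt_DIF := by
  intro n c hn hn2
  obtain ⟨N₀, hN₀⟩ := h1 n c hn
  refine ⟨N₀, ?_⟩
  intro N hN K _ _ l hl m S hS g hg hfull σ x hx r
  have := DIF_countable K
  obtain ⟨e, D, hD, hD0, hDx⟩ := hN₀ (AlgebraicClosure K) N l hN hl
  let τ : AlgebraicClosure K →+* ℂ :=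
    letI : Algebra K ℂ := σ.toAlgebra
    (IsAlgClosed.lift (R := K) (M := ℂ) (S := AlgebraicClosure K)).toRingHom
  have hτ : τ.comp (algebraMap K (AlgebraicClosure K)) = σ := by
    let : Algebra K ℂ := σ.toAlgebra
    exact AlgHom.comp_algebraMap
      (IsAlgClosed.lift (R := K) (M := ℂ) (S := AlgebraicClosure K))
  have hx' : OnK (tm τ) S x := by
    intro F hF
    have h6 : (tm τ).comp (algebraMap K (AlgebraicClosure K)) =
        (algebraMap ℂ Mer).comp σ := by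
      rw [tm, RingHom.comp_assoc, hτ]
    rw [h6]
    exact hx F hF
  by_contra hcon
  push Not at hcon
  have hr0 : x (r 0) ≠ 0 := by
    have h := hcon 1 (X 0) (X_ne_zero _) (isHomogeneous_X _ _)
    rwa [aeval_X] at h
  have hx0 : x ≠ 0 := fun h => hr0 (congrFun h _)
  have hind := hHOMR 1 (fun i => x (r i)) hr0 hcon
  have hnc : ∃ i₀ i, x i₀ ≠ 0 ∧ ∀ a : ℂ, x i ≠ algebraMap ℂ Mer a * x i₀ := by
    refine ⟨r 0, r 1, hr0, fun a ha => ?_⟩
    have h2 := hind.transcendental 0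
    have h3 : x (r (Fin.succ 0)) / x (r 0) = algebraMap ℂ Mer a := by
      rw [div_eq_iff hr0]
      exact ha
    rw [h3] at h2
    exact h2 (isAlgebraic_algebraMap a)
  obtain ⟨M1, -⟩ := hMPT K (AlgebraicClosure K) Mer m n S g (tm τ) x hx'
  obtain ⟨s, hs, c₀, hc₀⟩ := M1 hx0
  have hDy := hDx K m S hS g hg hfull τ x hx' hnc s hs
  have hDy' : eval₂ (algebraMap ℂ Mer) (fun c => eval₂ (tm τ) x (s c)) (map τ D) = 0 := by
    rw [eval₂_map]
    exact hDy
  set A : Set Mer := Set.range fun c => eval₂ (tm τ) x (s c) / eval₂ (tm τ) x (s c₀) with hA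
  have h2 : ∀ j : Fin (1 + 1), IsAlgebraic (Algebra.adjoin ℂ A) (x (r j.succ) / x (r 0)) :=
    fun j => hFIB K (AlgebraicClosure K) m n S g hS hg τ x hx' s hs c₀ hc₀ (r j.succ) (r 0) hr0
  have h3 : ∀ a ∈ A, IsAlgebraic (Algebra.adjoin ℂ A) a := fun a ha =>
    isAlgebraic_algebraMap (⟨a, Algebra.subset_adjoin ha⟩ : Algebra.adjoin ℂ A)
  obtain ⟨t, ht1, ht2⟩ := hTRX (1 + 1) _ A A hind h2 h3
  exact DIF_alg hn2 (fun c => eval₂ (tm τ) x (s c)) c₀ hc₀ (map τ D) (hD.map τ)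
    (by
      intro h
      exact hD0 (map_injective τ τ.injective (by rw [h, map_zero]))) hDy' t ht1 ht2

end Pool.MPV
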