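import Pool.Agent.Work.MP_f82ddf_U.Interface2

set_option autoImplicit false

/-! # THEOREM V (MP_f82ddf_nt): multiplicities at least `k` instead of `k`-th powers

Folder `Pool/Agent/Work/MP_f82ddf_V`, table `mpv_blocks`.  Block file `B_X.lean`: import this file
(and other block files for auxiliary lemmas), namespace `Pool.MPV`, final theorem
`p_X : Stmt_A → Stmt_B → .. → Stmt_X` with the blocks of the column `uses` as hypotheses, in that
order; all other lemmas with the prefix `X_`.  In the column `uses` `U.DSC` means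
`Pool.MPL.Stmt_DSC`, `M3.NOD` means `Pool.ThmM.Chow.Stmt_NOD`, `M1.VAL` means `Pool.ThmM.Stmt_VAL`,
`P.MPT` means `Pool.ThmP.Stmt_MPT`, `M0.CST` means `Pool.ThmM0.Stmt_CST`.

THEOREM U for varieties `X` with a finite morphism `g : X → P^n` such that the pull backs of the
hyperplanes have only multiplicities at least 2 (not only `k`-th powers).  For the core this is
NOT harder: if `Φ` is the Chow form, `R` the product of all its moving irreducible factors `P`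
(each once), of multiplicities `m P < k` in `Φ`, then at a point `z` where `R` has order `1` at a
node exactly one `P` has order `1` and the others have order `0`, so `Φ` has the order `m P` with
`1 ≤ m P < k`, which is excluded.  So some moving irreducible `P` has `P ^ k ∣ Φ`. -/

open Pool.Agent.Work.MP_f82ddf_nt.DQ

namespace Pool.MPV

open MvPolynomial
open Pool.Agent.Work.MP_f82ddf_nt (PSpace HolomorphicOn complexPoints points KobayashiHyperbolic)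
open Pool.Agent.Work.MP_f82ddf_M5 (lineAt resAt chow at2 comb Data)
open Pool.ThmM (NonProp HypData IsRat om dv vP)
open Pool.ThmM0 (Per NoHypersurface)
open Pool.ThmM (Pr)
open Pool.ThmM.Chow (ppt Phi Mov subC)
open Pool.ThmP (Mor OnX OnK tm)
open Pool.MPL (RX NC aq ae NPr Spn ExcSet Onto)

/-- The point `x` meets the hyperplane `u` at every `z` with multiplicity `0` or at least `k`. -/
def Ful {n : ℕ} (k : ℕ) (x : Fin (n + 1) → Mer) (u : Fin (n + 1) → ℂ) : Prop :=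
  ∀ z : ℂ, om (∑ i, algebraMap ℂ Mer (u i) * x i) z = ((dv x z : ℤ) : WithTop ℤ) ∨
    ((dv x z + k : ℤ) : WithTop ℤ) ≤ om (∑ i, algebraMap ℂ Mer (u i) * x i) z

/-- Near every point `v` of `X` the pull back under `g` of the hyperplane `∑ c, l c * y c = 0` is, up
to a unit, a product of powers with exponents at least `k`.  For some tuple `s` of `g`, not zero at
`v`, and forms `a`, `b i`, with `a` not zero at `v`, the equation
`a * ∑ c, l c * s c = ∏ i, b i ^ μ i`, `k ≤ μ i`, holds on `X`. -/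
def Full {K Ω : Type} [Field K] [Field Ω] [Algebra K Ω] {m n : ℕ}
    {S : Set (MvPolynomial (Fin (m + 1)) K)} (g : Mor K Ω m n S) (k : ℕ)
    (l : Fin (n + 1) → Ω) : Prop :=
  ∀ v : Fin (m + 1) → Ω, v ≠ 0 → OnX S v →
    ∃ s ∈ g.tuples, (∃ c, eval v (s c) ≠ 0) ∧
      ∃ (d t : ℕ) (a : MvPolynomial (Fin (m + 1)) Ω) (b : Fin t → MvPolynomial (Fin (m + 1)) Ω)
        (e μ : Fin t → ℕ), a.IsHomogeneous d ∧ (∀ i, (b i).IsHomogeneous (e i)) ∧
        (∀ i, k ≤ μ i) ∧ eval v a ≠ 0 ∧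
        ∀ u, OnX S u → eval u a * ∑ c, l c * eval u (s c) = ∏ i, eval u (b i) ^ μ i

/-! ## A. The core -/

/-- NOF (60 lines), uses M1.VAL M1.GAU M3.LSB M3.FNC.  The node lemma for multiplicities.  PROOF.  As
M3.NOD (`MP_f82ddf_M/C_NOD.lean`): for a nonzero polynomial `P` with `subC g P ≠ 0` let
`δ(P) = vP (subC g P) z - vP P z`, an integer `≥ 0` (LSB), additive for products (M1.GAU);
`δ(C c) = δ(map Fix) = 0`.  So `δ(F) = ∑_(P ∈ s) m P δ(P)` for the product `F`, and `δ(F) = 0` or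
`δ(F) ≥ k`.  If `∑_(P ∈ s) δ(P) = δ(∏ P) = 1`, then exactly one `δ(P)` is `1` and the others are `0`,
so `δ(F) = m P` with `1 ≤ m P < k`, a contradiction. -/
def Stmt_NOF : Prop :=
  ∀ (σ τ : Type) [Finite σ] [Finite τ] (g : σ → MvPolynomial τ ℂ) (k : ℕ) (c : Mer)
    (Fix : MvPolynomial σ ℂ) (s : Finset (MvPolynomial σ Mer))
    (m : MvPolynomial σ Mer → ℕ) (z : ℂ) (a b : ℤ), (∀ P ∈ s, 1 ≤ m P ∧ m P < k) →
    vP (C c * map (algebraMap ℂ Mer) Fix * ∏ P ∈ s, P ^ m P) z = ((a : ℤ) : WithTop ℤ) →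
    vP (subC Mer g (C c * map (algebraMap ℂ Mer) Fix * ∏ P ∈ s, P ^ m P)) z =
      ((b : ℤ) : WithTop ℤ) →
    b = a ∨ a + k ≤ b →
    vP (subC Mer g (∏ P ∈ s, P)) z ≠ vP (∏ P ∈ s, P) z + 1

/-- CORF (taken by helper71), uses M3.CHP M3.PLW M3.PFA M3.FNC M3.FCH M3.PHG M3.LBD M3.HTE M3.FAC
M3.COP NOF M3.GRO M3.FTL M3.NDC M3.EXE M3.NVH M3.COU M3.END M3.PRJ M1.VAL.  The core.  PROOF.  As
`MP_f82ddf_U/B_CORN.lean` with `R` the product of all the moving irreducible factors. -/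
def Stmt_CORF : Prop :=
  ∃ β : ℕ → ℕ → ℕ, ∀ (k r w d : ℕ) (Q : MvPolynomial (Fin (w + 2)) ℂ)
    (A : Fin (r + 1) → MvPolynomial (Fin (w + 2)) ℂ) (T : Finset (Fin (r + 1) → ℂ))
    (lift : (Fin (r + 1) → ℂ) → (Fin (w + 2) → ℂ)) (x : Fin (r + 1) → Mer)
    (tr : Mer ≃ₐ[ℂ] Mer), HypData r w d Q A T lift →
    (∀ (e : ℕ) (f : MvPolynomial (Fin (w + 2)) ℂ), e ≤ β w d → f.IsHomogeneous e →
      (∀ u ∈ T, eval (lift u) f = 0) → Q ∣ f) →
    (∀ y : Fin (r + 1) → ℂ, (∀ u ∈ T, ∑ i, u i * y i = 0) → y = 0) →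
    (∀ u ∈ T, ∑ i, algebraMap ℂ Mer (u i) * x i ≠ 0) →
    (∀ (f : Mer) (n : ℕ), 1 ≤ n → (tr^[n]) f = f → IsRat f → ∃ a : ℂ, f = algebraMap ℂ Mer a) →
    (∀ i, tr (x i) = x i) →
    (∀ u ∈ T, Ful k x u) → Mov (Phi Mer d Q A x) →
    ∃ P : MvPolynomial (Fin 2 × Fin (w + 2)) Mer, Irreducible P ∧ Mov P ∧
      P ^ k ∣ Phi Mer d Q A x

/-- DRF (100 lines), uses CORF M1.TRA.  Nodes orthogonal to `x` are thrown away; at most `c` nodes
are orthogonal to a nonzero vector.  PROOF.  Exactly as `DRP_gen` in `MP_f82ddf_U/B_DRP.lean` (see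
also the docstring of U.DRC), with CORF in the place of CORN. -/
def Stmt_DRF : Prop :=
  ∀ n c : ℕ, ∃ β : ℕ → ℕ → ℕ, (∀ w d, 2 * c + 1 ≤ β w d) ∧
    ∀ (w d : ℕ) (Q : MvPolynomial (Fin (w + 2)) ℂ)
      (A : Fin (n + 1) → MvPolynomial (Fin (w + 2)) ℂ) (T : Finset (Fin (n + 1) → ℂ))
      (lift : (Fin (n + 1) → ℂ) → (Fin (w + 2) → ℂ)),
      HypData n w d Q A T lift → β w d ≤ T.card →
      (∀ v : Fin (n + 1) → ℂ, v ≠ 0 → (T.filter fun u => ∑ i, v i * u i = 0).card ≤ c) →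
      (∀ (e : ℕ) (f : MvPolynomial (Fin (w + 2)) ℂ), e ≤ β w d → f.IsHomogeneous e →
        (∀ u ∈ T, eval (lift u) f = 0) → Q ∣ f) →
      ∀ (k : ℕ) (x : Fin (n + 1) → Mer), x ≠ 0 → (∀ i, Per (x i)) →
        (∀ u ∈ T, Ful k x u) → Mov (Phi Mer d Q A x) →
        ∃ P : MvPolynomial (Fin 2 × Fin (w + 2)) Mer, Irreducible P ∧ Mov P ∧
          P ^ k ∣ Phi Mer d Q A x

/-- UNB (80 lines), uses U.MIR U.DSC U.ULN U.UIR M5.FUN.  PROOF.  As `MP_f82ddf_U/B_UNA.lean` (second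
half): `Fix₀`, `H` from UIR, `D` from DSC for `H`; for `α`, `φ = (aeval x).comp (map α)`,
`Phi Mer d (aq α Q) (aq α A) x = map φ (UF d Q A) = map (algebraMap ℂ Mer) (map α Fix₀) * map φ H`
(lemmas of B_UNA.lean), MIR: `P` does not divide the first factor, so `P ^ 2 ∣ map φ H` and DSC. -/
def Stmt_UNB : Prop :=
  ∀ (N n d : ℕ) (Q : MvPolynomial (Fin N) ℂ) (A : Fin (n + 1) → MvPolynomial (Fin N) ℂ),
    1 ≤ n → Data N n d d Q A →
    ∃ D : RX n, D ≠ 0 ∧ ∀ (α : ℂ ≃+* ℂ) (x : Fin (n + 1) → Mer)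
      (P : MvPolynomial (Fin 2 × Fin N) Mer), Irreducible P → Mov P →
      P ^ 2 ∣ Phi Mer d (aq α Q) (fun i => aq α (A i)) x → aeval x (aq α D) = 0

/-- EXF (100 lines), uses M1.REP M1.ALG M1.ORD M1.VAL.  Composition with the exponential function and
orders.  PROOF.  `φ` as in `MP_f82ddf_M0/B_EXPO.lean` (or `MP_f82ddf_M1/B_EXP.lean`):
`φ (Mer.mk f hf) = Mer.mk (f ∘ exp) _`.  The order of `f ∘ exp` at `z` is the order of `f` at
`exp z`, because `exp` is analytic with nonzero derivative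
(`meromorphicOrderAt_comp_of_deriv_ne_zero`, or: near `w = exp z` write `f = (· - w) ^ n • h`, `h`
analytic, `h w ≠ 0`, and `exp ζ - exp z = (ζ - z) • h₁ ζ`, `h₁ z ≠ 0`); `om` and `rep`: M1.REP,
M1.ALG, `meromorphicOrderAt_congr`.  The last clause: `dv` is the minimum of the orders of the
nonzero entries (M1.ORD, M1.VAL), and `φ ∘ x = 0` only if `x = 0`. -/
def Stmt_EXF : Prop :=
  ∃ φ : Mer →ₐ[ℂ] Mer, (∀ x, Per (φ x)) ∧ (∀ (f : Mer) (z : ℂ), om (φ f) z = om f (Complex.exp z)) ∧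
    ∀ (n : ℕ) (x : Fin (n + 1) → Mer) (z : ℂ), dv (fun i => φ (x i)) z = dv x (Complex.exp z)

/-- PTF (150 lines), uses M2.T3 DRF UNB U.TRP EXF U.MVP.  PROOF.  As `MP_f82ddf_U/B_PTA.lean`: T3 for `S`
(once) with the function of DRF; UNB for `Q`, `A`: `D₀`; `D₁ = D₀ * X 0`, `D` = a nonzero
homogeneous component of `D₁`.  For `α`, `x`: `x' = φ ∘ x` with `φ` from EXF; `Ful 2 x' u` follows from
`Ful 2 x u` (`∑ u_i φ(x_i) = φ (∑ u_i x_i)`, EXF), also for the multiples `t x'`, `t ∈ ℂ`, `t ≠ 0`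
(orders do not change), and `NC (t x')`; the conjugate datum (TRP) is a `Data`, so by MVP
`Phi Mer d (aq α Q) (aq α A) (t x')` is moving; DRF with `k = 2` gives `P`; UNB:
`aeval (t x') (aq α D₀) = 0` for all `t ≠ 0`.  End as in B_PTA.lean. -/
def Stmt_PTF : Prop :=
  ∀ n c : ℕ, 1 ≤ n → ∃ N₁ : ℕ, ∀ S : Finset (Fin (n + 1) → ℂ),
    (∀ u ∈ S, ∀ v ∈ S, u ≠ v → NonProp u v) → Spn c S → N₁ ≤ S.card →
    ∃ (e : ℕ) (D : RX n), 1 ≤ e ∧ D.IsHomogeneous e ∧ D ≠ 0 ∧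
      ∀ (α : ℂ ≃+* ℂ) (x : Fin (n + 1) → Mer), NC x →
        (∀ u ∈ S, Ful 2 x (fun i => α (u i))) → aeval x (aq α D) = 0

/-- UEF (100 lines), uses PTF U.AUT U.DSE U.RKT.  PROOF.  As `MP_f82ddf_U/B_UEX.lean`. -/
def Stmt_UEF : Prop :=
  ∀ n c : ℕ, 1 ≤ n → ∃ N₁ : ℕ, ∀ (Ω : Type) [Field Ω] [IsAlgClosed Ω] [Countable Ω]
    (S : Finset (Fin (n + 1) → Ω)), (∀ u ∈ S, ∀ v ∈ S, u ≠ v → NPr u v) → Spn c S →
    N₁ ≤ S.card →
    ∃ (e : ℕ) (D : MvPolynomial (Fin (n + 1)) Ω), 1 ≤ e ∧ D.IsHomogeneous e ∧ D ≠ 0 ∧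
      ∀ (τ : Ω →+* ℂ) (x : Fin (n + 1) → Mer), NC x →
        (∀ u ∈ S, Ful 2 x (fun i => τ (u i))) → eval₂ (tm τ) x D = 0

/-! ## B. Varieties with a finite morphism to projective space -/

/-- ORF (150 lines), uses P.NUL P.MPT M1.VAL M1.ORD M3.OZE.  The multiplicities of the point `g(x)`.
PROOF.  As `MP_f82ddf_P/B_ORD.lean` (read the docstring of P.ORD): `y_c = s_c(x)`, `i₁` with
`om (x i₁) z` minimal, `x' = x / x i₁` with values in the local ring `O`, `θ`, `p = θ(x') ≠ 0`.  `E` =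
the set of all `a * s' c₁` where `s' ∈ g.tuples`, `c₁` an index and `a`, `b i`, `μ i ≥ k` are as in
`Full` for `s'`; by `Full g k l` the common zeros of `S` and `E` over `Ω` are `0`, so by NUL there is
such a datum with `a(p) ≠ 0`, `s'_(c₁)(p) ≠ 0`.  NUL with `κ = Mer`, `E = ∅` and
`G = a * ∑ c, C (l c) * s' c - ∏ i, b i ^ μ i`: `a(x') w = ∏ i, b_i(x') ^ μ i` with
`w = ∑ c, l_c s'_c(x')`.  `a(x')` has order `0` and the `b_i(x')` are in `O`, so `om w z` is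
`∑ μ i * om (b_i(x')) z`: `0` or at least `k` (or `⊤` if some `b_i(x') = 0`).  `s_c(x) = ν s'_c(x')`
with `ν = s_(c₁)(x) / s'_(c₁)(x')`; `dv y z = om ν z` because the `s'_c(x')` are in `O` and one of
them is a unit (M1.ORD: `dv` is the minimum of the orders of the nonzero entries; M1.VAL).  So
`om (∑ c, l_c y_c) z = dv y z + om w z`. -/
def Stmt_ORF : Prop :=
  ∀ (K Ω : Type) [Field K] [Field Ω] [Algebra K Ω] [IsAlgClosed Ω] (m n k : ℕ)
    (S : Set (MvPolynomial (Fin (m + 1)) K)) (g : Mor K Ω m n S),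
    (∀ F ∈ S, ∃ d, F.IsHomogeneous d) →
    ∀ (τ : Ω →+* ℂ) (x : Fin (m + 1) → Mer), OnK (tm τ) S x → ∀ s ∈ g.tuples,
    (∃ c, eval₂ (tm τ) x (s c) ≠ 0) → ∀ l : Fin (n + 1) → Ω, Full g k l →
      Ful k (fun c => eval₂ (tm τ) x (s c)) (fun c => τ (l c))

/-- MPF (120 lines), uses UEF U.SLO P.MPT ORF P.FIB M0.CST.  PROOF.  As `MP_f82ddf_U/B_MPU.lean`, but
simpler (no division by `z₀`): `N₁` from UEF, `N₀ = c + c * N₁`; SLO: `S₁`; UEF: `e`, `D`.  Let `x` be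
a point of `X` over `Mer`, not constant.  MPT (1): `s₀ ∈ g.tuples` with `y = s₀(x) ≠ 0`.  `NC y` by
FIB and CST as in B_MPU.lean.  ORF: `Ful 2 y (τ ∘ u)` for `u = l j ∈ S₁`.  UEF: `D(y) = 0`.  For any
`s ∈ g.tuples` the vector `s(x)` is a multiple of `y` (MPT (2)), so `D(s(x)) = 0`. -/
def Stmt_MPF : Prop :=
  ∀ n c : ℕ, 1 ≤ n → ∃ N₀ : ℕ, ∀ (Ω : Type) [Field Ω] [IsAlgClosed Ω] [Countable Ω] (N : ℕ)
    (l : Fin (N + 1) → Fin (n + 1) → Ω), N₀ ≤ N →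
    (∀ v : Fin (n + 1) → Ω, v ≠ 0 → {j | ∑ i, l j i * v i = 0}.ncard ≤ c) →
    ∃ (e : ℕ) (D : MvPolynomial (Fin (n + 1)) Ω), D.IsHomogeneous e ∧ D ≠ 0 ∧
      ∀ (K : Type) [Field K] [Algebra K Ω] (m : ℕ)
        (S : Set (MvPolynomial (Fin (m + 1)) K)), (∀ F ∈ S, ∃ d, F.IsHomogeneous d) →
        ∀ (g : Mor K Ω m n S), g.Finite → (∀ j, Full g 2 (l j)) →
        ∀ (τ : Ω →+* ℂ) (x : Fin (m + 1) → Mer), OnK (tm τ) S x →
          (∃ i₀ i, x i₀ ≠ 0 ∧ ∀ a : ℂ, x i ≠ algebraMap ℂ Mer a * x i₀) →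
          ∀ s ∈ g.tuples, eval₂ (tm τ) (fun c => eval₂ (tm τ) x (s c)) D = 0

/-- DIF (120 lines), uses MPF P.MPT P.FIB P.TRX M0.HOMR.  Surfaces and curves: for `n ≤ 2` all the
points of `X` over `Mer` are of dimension at most 1.  PROOF.  Let `σ : K →+* ℂ` and `x` a point; extend
`σ` to `τ : AlgebraicClosure K →+* ℂ` (see `MP_f82ddf_P/B_F12.lean`).  Let three coordinates
`x (r 0), x (r 1), x (r 2)` satisfy no homogeneous relation; then `x (r 0) ≠ 0` and by HOMR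
`x (r 1) / x (r 0)`, `x (r 2) / x (r 0)` are algebraically independent, in particular not constants, so
`x` is not constant.  MPT: `s` with `y = s(x) ≠ 0`, `y_(c₀) ≠ 0`.  MPF: `D(y) = 0`, where `D ≠ 0` is
homogeneous in `n + 1 ≤ 3` variables: so the `≤ 2` quotients `y_c / y_(c₀)`, `c ≠ c₀`, are
algebraically dependent over `ℂ` (apply `τ` to `D`; for `n = 1` the only quotient is algebraic).
By FIB the `x i / x (r 0)` are algebraic over the ring generated by the quotients `y_c / y_(c₀)`;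
TRX with `m = 2`: two algebraically independent elements among the `y_c / y_(c₀)` (the one for
`c₀` is `1` and cannot occur), a contradiction. -/
def Stmt_DIF : Prop :=
  ∀ n c : ℕ, 1 ≤ n → n ≤ 2 → ∃ N₀ : ℕ, ∀ N : ℕ, N₀ ≤ N →
    ∀ (K : Type) [Field K] [NumberField K]
      (l : Fin (N + 1) → Fin (n + 1) → AlgebraicClosure K),
      (∀ v : Fin (n + 1) → AlgebraicClosure K, v ≠ 0 → {j | ∑ i, l j i * v i = 0}.ncard ≤ c) →
      ∀ (m : ℕ) (S : Set (MvPolynomial (Fin (m + 1)) K)), (∀ F ∈ S, ∃ d, F.IsHomogeneous d) →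
        ∀ (g : Mor K (AlgebraicClosure K) m n S), g.Finite → (∀ j, Full g 2 (l j)) →
          Pool.ThmM0.DimMer S 1

/-- THEOREM V. -/
def Stmt_V : Prop :=
  ∀ n c : ℕ, 1 ≤ n → ∃ N₀ : ℕ, ∀ N : ℕ, N₀ ≤ N →
    ∀ (K : Type) [Field K] [NumberField K]
      (l : Fin (N + 1) → Fin (n + 1) → AlgebraicClosure K),
      (∀ v : Fin (n + 1) → AlgebraicClosure K, v ≠ 0 → {j | ∑ i, l j i * v i = 0}.ncard ≤ c) →
      ∃ (e : ℕ) (D : MvPolynomial (Fin (n + 1)) (AlgebraicClosure K)),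
        D.IsHomogeneous e ∧ D ≠ 0 ∧
        ∀ (m : ℕ) (S : Set (MvPolynomial (Fin (m + 1)) K)),
          (∀ F ∈ S, ∃ d, F.IsHomogeneous d) →
          ∀ (g : Mor K (AlgebraicClosure K) m n S), g.Finite → (∀ j, Full g 2 (l j)) →
          (Onto g → ∃ v : Fin (m + 1) → AlgebraicClosure K, v ≠ 0 ∧ OnX S v ∧
            ∃ s ∈ g.tuples, eval (fun c => eval v (s c)) D ≠ 0) ∧
          ∀ (τ : AlgebraicClosure K →+* ℂ),
            (∀ f : ℂ → PSpace ℂ m, HolomorphicOn f Set.univ →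
              (∀ z, f z ∈ complexPoints S (τ.comp (algebraMap K (AlgebraicClosure K)))) →
              (∃ a b, f a ≠ f b) → ∀ z, f z ∈ ExcSet g D τ) ∧
            (KobayashiHyperbolic (complexPoints S (τ.comp (algebraMap K (AlgebraicClosure K)))) ↔
              KobayashiHyperbolic (ExcSet g D τ))

/-- FNV (80 lines), uses MPF M0.MREL.  PROOF of `Stmt_V`.  As `MP_f82ddf_U/B_FNU.lean`. -/
def Stmt_FNV : Prop := Stmt_V

/-- THEOREM V for curves and surfaces. -/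
def Stmt_VS : Prop :=
  ∀ n c : ℕ, 1 ≤ n → n ≤ 2 → ∃ N₀ : ℕ, ∀ N : ℕ, N₀ ≤ N →
    ∀ (K : Type) [Field K] [NumberField K]
      (l : Fin (N + 1) → Fin (n + 1) → AlgebraicClosure K),
      (∀ v : Fin (n + 1) → AlgebraicClosure K, v ≠ 0 → {j | ∑ i, l j i * v i = 0}.ncard ≤ c) →
      ∀ (m : ℕ) (S : Set (MvPolynomial (Fin (m + 1)) K)), (∀ F ∈ S, ∃ d, F.IsHomogeneous d) →
        ∀ (g : Mor K (AlgebraicClosure K) m n S), g.Finite → (∀ j, Full g 2 (l j)) →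
          (∀ σ : K →+* ℂ, KobayashiHyperbolic (complexPoints S σ) ↔
            ¬ Pool.MCL.CubicImage S (AlgebraicClosure K) (algebraMap K (AlgebraicClosure K))) ∧
          (Pool.MCL.CubicImage S (AlgebraicClosure K) (algebraMap K (AlgebraicClosure K)) →
            ∃ (L : Type) (_ : Field L) (_ : Algebra K L) (_ : FiniteDimensional K L),
              (points S L).Infinite)

/-- FVS (30 lines), uses DIF M0.PAI P6C (`Pool.MCL.stmt_P6C`).  PROOF of `Stmt_VS`.  As the end of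
`MP_f82ddf_P/B_F12.lean` (`M = 1`). -/
def Stmt_FVS : Prop := Stmt_VS

/-! ## C. Hyperplanes in general position with respect to hypersurfaces of low degree -/

/-- CRF (40 lines), uses CORF M1.TRA.  PROOF.  As `MP_f82ddf_P/B_CRB.lean` with CORF (`β = β w d`; by
linear independence `∑ u_i x_i ≠ 0` for `u ∈ T`, `u ≠ 0` because two different elements of `T` are
not proportional, or `T = {0}`, excluded by the spanning condition). -/
def Stmt_CRF : Prop :=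
  ∀ r w d : ℕ, ∃ β : ℕ, ∀ (Q : MvPolynomial (Fin (w + 2)) ℂ)
      (A : Fin (r + 1) → MvPolynomial (Fin (w + 2)) ℂ) (T : Finset (Fin (r + 1) → ℂ))
      (lift : (Fin (r + 1) → ℂ) → (Fin (w + 2) → ℂ)),
    HypData r w d Q A T lift →
    (∀ (e : ℕ) (f : MvPolynomial (Fin (w + 2)) ℂ), e ≤ β → f.IsHomogeneous e →
        (∀ u ∈ T, eval (lift u) f = 0) → Q ∣ f) →
    (∀ u ∈ T, ∀ v ∈ T, u ≠ v → NonProp u v) →
    (∀ v : Fin (r + 1) → ℂ, (∀ u ∈ T, ∑ i, v i * u i = 0) → v = 0) →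
    ∀ x : Fin (r + 1) → Mer, LinearIndependent ℂ x → (∀ i, Per (x i)) →
      (∀ u ∈ T, Ful 2 x u) → Mov (Phi Mer d Q A x) →
      ∃ P : MvPolynomial (Fin 2 × Fin (w + 2)) Mer, Irreducible P ∧ Mov P ∧
        P ^ 2 ∣ Phi Mer d Q A x

/-- LGF (120 lines), uses CRF M0.CH1.  Nodes not on a hypersurface of low degree.  PROOF.  As
`MP_f82ddf_M0/B_LGN.lean` or `MP_f82ddf_P/B_LGP.lean`: `w = r`, `d = 1`, `Q = X_last`,
`A_i = X_(castSucc i)`, `T = S`, `lift u = Fin.snoc u 0`.  The Chow form `Φ` has the coefficients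
`ε x_i` (CH1), `ε ≠ 0`, so it is moving: if `Φ = C c * map G` then `ε x_0 = c z_0`, `ε x_1 = c z_1` and
`z_1 x_0 - z_0 x_1 = 0` contradicts the linear independence (`r ≥ 1`).  CRF: a moving irreducible `P`
with `P ^ 2 ∣ Φ`; the partial degrees of `Φ` are at most 1 (CH1) and `degreeOf` is additive, so
`P` is a constant, and not irreducible. -/
def Stmt_LGF : Prop :=
  ∀ r : ℕ, 1 ≤ r → ∃ β : ℕ, ∀ S : Finset (Fin (r + 1) → ℂ),
    (∀ u ∈ S, ∀ v ∈ S, u ≠ v → NonProp u v) →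
    (∀ (e : ℕ) (G : Pr r), e ≤ β → G.IsHomogeneous e → G ≠ 0 → ∃ u ∈ S, eval u G ≠ 0) →
    ∀ x : Fin (r + 1) → Mer, LinearIndependent ℂ x → (∀ i, Per (x i)) →
      (∀ u ∈ S, Ful 2 x u) → False

/-- GNF (180 lines), uses P.MPT ORF P.FIB P.BAS LGF M0.NHC M0.PUL M0.CST EXF M1.ORD M1.VAL.  PROOF.  As
`MP_f82ddf_P/B_GNP.lean` without the division by `z₀`: `y = s(x) ≠ 0`, BAS: `ρ`, `ι`, `b`, and
`x'_i = y (ι i)`, `u_j = ∑ c, τ(l_(j c)) b_(c i)`, so `∑ c, l_(j c) y_c = ∑ i, u_(j i) x'_i`.  ORF: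
`Ful 2 y (τ ∘ l j)`; `dv x' = dv y` (every `y_c` is a complex combination of the `x'_i`, and the
`x'_i` are among the `y_c`: M1.ORD, M1.VAL), so `Ful 2 x' u_j`, and `Ful 2 (φ ∘ x') u_j` with `φ` from
EXF.  CASE `ρ ≥ 1`: LGF for a maximal set `S₁` of pairwise non proportional vectors among the
nonzero `u_j`.  CASE `ρ = 0`: FIB, CST. -/
def Stmt_GNF : Prop :=
  ∀ n : ℕ, ∃ D : ℕ, ∀ (N : ℕ),
    ∀ (K Ω : Type) [Field K] [Field Ω] [Algebra K Ω] [IsAlgClosed Ω] (m : ℕ)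
      (S : Set (MvPolynomial (Fin (m + 1)) K)), (∀ F ∈ S, ∃ d, F.IsHomogeneous d) →
      ∀ (g : Mor K Ω m n S) (l : Fin (N + 1) → Fin (n + 1) → Ω), g.Finite →
        NoHypersurface D l → (∀ j, Full g 2 (l j)) →
        ∀ (τ : Ω →+* ℂ) (x : Fin (m + 1) → Mer), OnK (tm τ) S x →
          ∀ i₀ i, x i₀ ≠ 0 → ∃ a : ℂ, x i = algebraMap ℂ Mer a * x i₀

/-- THEOREM V, generic hyperplanes. -/
def Stmt_VG : Prop :=
  ∀ n : ℕ, ∃ D : ℕ, ∀ (N : ℕ),
    ∀ (K : Type) [Field K] [CharZero K] (m : ℕ) (S : Set (MvPolynomial (Fin (m + 1)) K)),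
      (∀ F ∈ S, ∃ d, F.IsHomogeneous d) →
      ∀ (g : Mor K (AlgebraicClosure K) m n S) (l : Fin (N + 1) → Fin (n + 1) → AlgebraicClosure K),
        g.Finite → NoHypersurface D l → (∀ j, Full g 2 (l j)) →
        ∀ σ : K →+* ℂ, KobayashiHyperbolic (complexPoints S σ)

/-- FVG (40 lines), uses GNF.  PROOF of `Stmt_VG`.  As `MP_f82ddf_P/B_FP3.lean`. -/
def Stmt_FVG : Prop := Stmt_VG

end Pool.MPV
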