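import Pool.Agent.Work.MP_f82ddf_V.Interface

set_option autoImplicit false

namespace Pool.MPV

open MvPolynomial Finset Pool.Agent.Work.MP_f82ddf_nt Pool.Agent.Work.MP_f82ddf_nt.DQ Pool.ThmM
  Pool.ThmM0

theorem p_CRF (hC : Stmt_CORF) (hT : Pool.ThmM.Stmt_TRA) : Stmt_CRF := by
  classical
  obtain ⟨β, hβ⟩ := hC
  obtain ⟨tr, -, -, htr3, htr4⟩ := hT
  intro r w d
  refine ⟨β w d, ?_⟩
  intro Q A T lift hH hdiv hNP horth x hLI hper hful hmov
  rw [Fintype.linearIndependent_iff] at hLI
  have hu0 : ∀ u ∈ T, u ≠ 0 := by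
    intro u hu h0
    by_cases hex : ∃ v ∈ T, v ≠ u
    · obtain ⟨v, hv, hvu⟩ := hex
      have h1 := hNP u hu v hv hvu.symm 1 0 (by simp [h0])
      exact one_ne_zero h1.1
    · have h2 := horth (fun _ => 1) (by
        intro u' hu'
        have h3 : u' = u := by
          by_contra hne
          exact hex ⟨u', hu', hne⟩
        rw [h3, h0]
        simp)
      exact one_ne_zero (congrFun h2 0)
  refine hβ 2 r w d Q A T lift x tr hH hdiv ?_ ?_ htr3 ?_ hful hmov
  · intro y hy
    refine horth y fun u hu => ?_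
    rw [← hy u hu]
    exact Finset.sum_congr rfl fun i _ => mul_comm _ _
  · intro u hu h0
    apply hu0 u hu
    funext i
    refine hLI u ?_ i
    rw [← h0]
    exact Finset.sum_congr rfl fun i _ => Algebra.smul_def _ _
  · intro i
    obtain ⟨f, hf, hx, hp⟩ := hper i
    obtain ⟨hf', h⟩ := htr4 f hf
    rw [hx, h]
    congr 1
    funext z
    exact hp z

end Pool.MPV
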