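import Pool.Agent.Work.MP_f82ddf_V.Interface
import Pool.Agent.Work.MP_f82ddf_U.B_DRP

set_option autoImplicit false

open Pool.Agent.Work.MP_f82ddf_nt.DQ

namespace Pool.MPV

open MvPolynomial
open Pool.Agent.Work.MP_f82ddf_M5 (lineAt resAt chow at2 comb Data)
open Pool.ThmM (NonProp HypData IsRat)
open Pool.ThmM0 (Per)
open Pool.ThmM.Chow (ppt Phi Mov)

theorem p_DRF : Stmt_CORF → Pool.ThmM.Stmt_TRA → Stmt_DRF := by
  classical
  intro hC hT n c
  obtain ⟨β, hβ⟩ := hC
  obtain ⟨tr, -, -, htr3, htr4⟩ := hT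
  refine ⟨fun w d => β w d + c + (2 * c + 1), fun w d => by dsimp only; omega, ?_⟩
  intro w d Q A T lift hH hcard hGP hdiv k x hx hper hnode hmov
  dsimp only at hcard hdiv
  set T' : Finset (Fin (n + 1) → ℂ) :=
    T.filter fun u => ∑ i, algebraMap ℂ Mer (u i) * x i ≠ 0 with hT'
  have hsub : ∀ u ∈ T', u ∈ T := fun u hu => (Finset.mem_filter.1 hu).1
  have hprime : Prime Q := hH.irr.prime
  -- few nodes are thrown away
  have hfew : (T \ T').card ≤ c := by
    obtain ⟨v, hv, hvu⟩ := Pool.MPL.DRP_descend x hx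
    refine le_trans (Finset.card_le_card fun u hu => ?_) (hGP v hv)
    rw [Finset.mem_sdiff] at hu
    refine Finset.mem_filter.2 ⟨hu.1, hvu u ?_⟩
    by_contra hne
    exact hu.2 (Finset.mem_filter.2 ⟨hu.1, hne⟩)
  have hcT : T.card ≤ T'.card + c := by
    have h1 := Finset.card_sdiff_add_card_inter T T'
    have h2 : (T ∩ T').card ≤ T'.card := Finset.card_le_card Finset.inter_subset_right
    omega
  refine hβ k n w d Q A T' lift x tr ?_ ?_ ?_ ?_ htr3 ?_ ?_ hmov
  · exact ⟨hH.hw, hH.hwr, hH.hd, hH.irr, hH.homQ, hH.mon, hH.homA,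
      fun u hu => hH.zero u (hsub u hu), fun u hu => hH.smooth u (hsub u hu),
      fun u hu => hH.prop u (hsub u hu)⟩
  · intro e f he hf hfz
    choose l hl1 hl2 hl3 using fun u : Fin (n + 1) → ℂ =>
      Pool.ThmM.FIN.linform hH.hw hH.hd hH.mon (lift u)
    have h1 : (∏ u ∈ T \ T', l u).IsHomogeneous (T \ T').card := by
      have := IsHomogeneous.prod (T \ T') l (fun _ => 1) fun u _ => hl1 u
      simpa using this
    have h2 := hdiv (e + (T \ T').card) (f * ∏ u ∈ T \ T', l u) (by omega) (hf.mul h1) (by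
      intro u hu
      rw [map_mul, map_prod]
      by_cases hu' : u ∈ T'
      · rw [hfz u hu', zero_mul]
      · rw [Finset.prod_eq_zero (Finset.mem_sdiff.2 ⟨hu, hu'⟩) (hl2 u), mul_zero])
    rcases hprime.dvd_or_dvd h2 with h | h
    · exact h
    · rw [Prime.dvd_finsetProd_iff hprime] at h
      obtain ⟨u, -, hu⟩ := h
      exact absurd hu (hl3 u)
  · intro y hy
    by_contra hne
    have h1 := hGP y hne
    have h2 : T'.card ≤ (T.filter fun u => ∑ i, y i * u i = 0).card := by
      refine Finset.card_le_card fun u hu => Finset.mem_filter.2 ⟨hsub u hu, ?_⟩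
      rw [← hy u hu]
      exact Finset.sum_congr rfl fun i _ => mul_comm _ _
    have h3 := le_trans h2 h1
    omega
  · intro u hu
    exact (Finset.mem_filter.1 hu).2
  · intro i
    obtain ⟨f, hf, hx', hp⟩ := hper i
    obtain ⟨hf', h⟩ := htr4 f hf
    rw [hx', h]
    congr 1
    funext z
    exact hp z
  · exact fun u hu => hnode u (hsub u hu)

end Pool.MPV
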