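import Pool.Agent.Work.MP_f82ddf_V.Interface
import Pool.Agent.Work.MP_f82ddf_M0.B_EXPO
import Pool.Agent.Work.MP_f82ddf_M1.B_VAL

set_option autoImplicit false

/-! # EXF: composition with the exponential function and orders -/

open Pool.Agent.Work.MP_f82ddf_nt.DQ

namespace Pool.MPV

open Topology Filter
open Pool.ThmM (om dv rep vec)
open Pool.ThmM0 (Per EXPO_hom EXPO_fun EXPO_fun_mk EXPO_mer)

/-- composition with the exponential function -/
noncomputable def EXF_phi : Mer →ₐ[ℂ] Mer :=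
  { EXPO_hom with
    commutes' := by
      intro c
      change EXPO_fun (algebraMap ℂ Mer c) = _
      rw [Mer.algebraMap_eq, EXPO_fun_mk] }

theorem EXF_mk (f : ℂ → ℂ) (hf : ∀ z, MeromorphicAt f z) :
    EXF_phi (Mer.mk f hf) = Mer.mk (fun z => f (Complex.exp z)) (EXPO_mer hf) :=
  EXPO_fun_mk f hf

/-- the representatives near a point -/
theorem EXF_rep (hR : Pool.ThmM.Stmt_REP) (hA : Pool.ThmM.Stmt_ALG) (f : Mer) (z : ℂ) :
    rep (EXF_phi f) =ᶠ[𝓝[≠] z] (rep f ∘ Complex.exp) := by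
  obtain ⟨_, _, h, hf⟩ := hR f
  have h1 : EXF_phi f = Mer.mk (fun z => rep f (Complex.exp z)) (EXPO_mer h) := by
    conv_lhs => rw [← hf]
    exact EXF_mk _ _
  exact Pool.ThmM.VAL.evNE (hA.1 _ _ _ h1) z

theorem EXF_deriv (z : ℂ) : deriv Complex.exp z ≠ 0 := by
  rw [Complex.deriv_exp]
  exact Complex.exp_ne_zero z

theorem p_EXF (hR : Pool.ThmM.Stmt_REP) (hA : Pool.ThmM.Stmt_ALG) (hO : Pool.ThmM.Stmt_ORD)
    (_ : Pool.ThmM.Stmt_VAL) : Stmt_EXF := by
  have han : ∀ z, AnalyticAt ℂ Complex.exp z := fun z => Complex.differentiable_exp.analyticAt z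
  refine ⟨EXF_phi, fun x => ?_, fun f z => ?_, fun n x z => ?_⟩
  · obtain ⟨f, hf, rfl⟩ := Mer.exists_mk x
    refine ⟨fun z => f (Complex.exp z), EXPO_mer hf, EXF_mk f hf, fun z => ?_⟩
    simp only [Complex.exp_periodic z]
  · show meromorphicOrderAt (rep (EXF_phi f)) z = meromorphicOrderAt (rep f) (Complex.exp z)
    rw [meromorphicOrderAt_congr (EXF_rep hR hA f z)]
    exact meromorphicOrderAt_comp_of_deriv_ne_zero (han z) (EXF_deriv z)
  · have h1 : vec (fun i => EXF_phi (x i)) =ᶠ[𝓝[≠] z] (vec x ∘ Complex.exp) := by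
      have h2 : ∀ᶠ w in 𝓝[≠] z, ∀ i, rep (EXF_phi (x i)) w = (rep (x i) ∘ Complex.exp) w :=
        eventually_all.2 fun i => EXF_rep hR hA (x i) z
      filter_upwards [h2] with w hw
      funext i
      exact hw i
    have h3 : meromorphicOrderAt (vec (fun i => EXF_phi (x i))) z =
        meromorphicOrderAt (vec x) (Complex.exp z) := by
      rw [meromorphicOrderAt_congr h1]
      exact meromorphicOrderAt_comp_of_deriv_ne_zero (han z) (EXF_deriv z)
    unfold dv
    rw [MeromorphicOn.divisor_apply (fun w _ => (hO _ (fun i => EXF_phi (x i))).1 w)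
        (Set.mem_univ z),
      MeromorphicOn.divisor_apply (fun w _ => (hO _ x).1 w) (Set.mem_univ (Complex.exp z)), h3]

end Pool.MPV
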