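import Pool.Agent.Work.MP_f82ddf_V.Interface

set_option autoImplicit false

/-! # THEOREM V (MP_f82ddf_nt), block FVG -/

namespace Pool.MPV

open MvPolynomial Finset Pool.Agent.Work.MP_f82ddf_nt Pool.Agent.Work.MP_f82ddf_nt.DQ Pool.ThmM
  Pool.ThmM0
open Pool.ThmP (Mor OnX OnK tm)

theorem p_FVG (h1 : Stmt_GNF) : Stmt_FVG := by
  intro n
  obtain ⟨D, hD⟩ := h1 n
  refine ⟨D, fun N K _ _ m S hS g l hfin hno hdiv σ => ?_⟩
  by_contra hX
  obtain ⟨f, hf, hfX, hab⟩ := exists_entire_curve hS σ hX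
  obtain ⟨φ, hφ, i₀, hi₀, hF, hrep, hcon⟩ := exists_mer_of_curve hS σ f hf hfX
  obtain ⟨j, hj⟩ := hcon hab
  set x : Fin (m + 1) → Mer := fun j => Mer.mk (φ j) (hφ j) with hx
  letI : Algebra K ℂ := σ.toAlgebra
  set τ : AlgebraicClosure K →+* ℂ :=
    ((IsAlgClosed.lift : AlgebraicClosure K →ₐ[K] ℂ) : AlgebraicClosure K →+* ℂ) with hτ
  have hτσ : τ.comp (algebraMap K (AlgebraicClosure K)) = σ := by
    rw [hτ]
    exact AlgHom.comp_algebraMap _
  have hon : OnK (tm τ) S x := by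
    intro F hFS
    have h2 : (tm τ).comp (algebraMap K (AlgebraicClosure K)) = (algebraMap ℂ Mer).comp σ := by
      rw [tm, RingHom.comp_assoc, hτσ]
    rw [h2]
    exact hF F hFS
  have hi1 : x i₀ = 1 := hi₀
  have hi2 : x i₀ ≠ 0 := by
    rw [hi1]
    exact one_ne_zero
  obtain ⟨a, ha⟩ := hD N K (AlgebraicClosure K) m S hS g l hfin hno hdiv τ x hon i₀ j hi2
  rw [hi1, mul_one] at ha
  exact hj a ha

end Pool.MPV
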