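import Pool.Agent.Work.MP_f82ddf_V.Interface
import Pool.Agent.Work.MP_f82ddf_P.B_LGP

/-! # Theorem V, block LGF: nodes which do not lie on a hypersurface of low degree -/

set_option autoImplicit false

open Pool.Agent.Work.MP_f82ddf_nt.DQ

namespace Pool.MPV

open MvPolynomial
open Pool.Agent.Work.MP_f82ddf_nt (PSpace HolomorphicOn complexPoints points KobayashiHyperbolic)
open Pool.Agent.Work.MP_f82ddf_M5 (lineAt resAt chow at2 comb Data)
open Pool.ThmM (NonProp HypData IsRat om dv vP)
open Pool.ThmM0 (Per NoHypersurface)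
open Pool.ThmM (Pr)
open Pool.ThmM.Chow (ppt Phi Mov subC)
open Pool.ThmP (Mor OnX OnK tm LGP_lift LGP_lift_cast LGP_lift_last LGP_res LGP_res_eval
  LGP_res_hom LGP_dvd)

/-- A polynomial of partial degrees at most 1 is not divisible by the square of an irreducible
one. -/
theorem LGF_sq {ι M : Type} [Field M] (F P : MvPolynomial ι M) (hF : F ≠ 0)
    (hdeg : ∀ p, degreeOf p F ≤ 1) (hP : Irreducible P) (hdvd : P ^ 2 ∣ F) : False := by
  classical
  obtain ⟨R, hR⟩ := hdvd
  have hP0 : P ≠ 0 := hP.ne_zero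
  have hR0 : R ≠ 0 := by
    intro h
    rw [h, mul_zero] at hR
    exact hF hR
  have hd : ∀ p, degreeOf p P = 0 := by
    intro p
    have h1 := hdeg p
    rw [hR, degreeOf_mul_eq (pow_ne_zero 2 hP0) hR0, degreeOf_pow_eq p P 2 hP0] at h1
    omega
  have hC : P = C (coeff 0 P) := by
    ext m
    rw [coeff_C]
    split_ifs with h
    · rw [h]
    · by_contra hne
      have hm : m ∈ P.support := mem_support_iff.2 hne
      apply h
      ext i
      have h1 := monomial_le_degreeOf i hm
      rw [hd i] at h1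
      rw [Finsupp.zero_apply]
      omega
  apply hP.not_isUnit
  rw [hC]
  refine IsUnit.map C (isUnit_iff_ne_zero.2 ?_)
  intro h
  rw [h, C_0] at hC
  exact hP0 hC

theorem p_LGF (hCRF : Stmt_CRF) (hCH1 : Pool.ThmM0.Stmt_CH1) : Stmt_LGF := by
  classical
  intro r hr
  obtain ⟨β, hβ⟩ := hCRF r r 1
  refine ⟨max β 1, ?_⟩
  intro S hS hG' x hx hPer hFul
  have hG : ∀ (e : ℕ) (G : Pr r), e ≤ β → G.IsHomogeneous e → G ≠ 0 → ∃ u ∈ S, eval u G ≠ 0 :=
    fun e G he => hG' e G (he.trans (le_max_left _ _))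
  have hv : ∀ v : Fin (r + 1) → ℂ, (∀ u ∈ S, ∑ i, v i * u i = 0) → v = 0 := by
    intro v hv0
    by_contra hne
    obtain ⟨i, hi⟩ := Function.ne_iff.1 hne
    obtain ⟨u, hu, hu'⟩ := hG' 1 (∑ i, C (v i) * X i) (le_max_right _ _)
      (IsHomogeneous.sum _ _ _ fun i _ => (isHomogeneous_X _ _).C_mul _)
      (by
        intro h
        have h1 := congrArg (coeff (Finsupp.single i 1)) h
        rw [coeff_sum, coeff_zero, Finset.sum_eq_single i] at h1
        · rw [coeff_C_mul, coeff_X, if_pos rfl, mul_one] at h1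
          exact hi h1
        · intro j _ hj
          rw [coeff_C_mul, coeff_X, if_neg, mul_zero]
          intro h3
          exact hj (Finsupp.single_left_injective one_ne_zero h3)
        · intro h3
          exact absurd (Finset.mem_univ i) h3)
    apply hu'
    rw [map_sum, ← hv0 u hu]
    apply Finset.sum_congr rfl
    intro j _
    rw [map_mul, eval_C, eval_X]
  have hHyp : HypData r r 1 (X (Fin.last (r + 1)) : MvPolynomial (Fin (r + 2)) ℂ)
      (fun i => X i.castSucc) S (LGP_lift r) := by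
    refine ⟨hr, le_refl r, le_refl 1, (X_prime).irreducible, isHomogeneous_X _ _,
      ⟨fun _ => 0, by simp⟩, fun i => isHomogeneous_X _ _, ?_, ?_, ?_⟩
    · intro u _
      rw [eval_X, LGP_lift_last]
    · intro u _
      rw [pderiv_X_self, map_one]
      exact one_ne_zero
    · intro u _
      refine ⟨1, one_ne_zero, fun i => ?_⟩
      rw [eval_X, LGP_lift_cast, one_mul]
  have hdiv : ∀ (e : ℕ) (f : MvPolynomial (Fin (r + 2)) ℂ), e ≤ β → f.IsHomogeneous e →
      (∀ u ∈ S, eval (LGP_lift r u) f = 0) →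
      (X (Fin.last (r + 1)) : MvPolynomial (Fin (r + 2)) ℂ) ∣ f := by
    intro e f he hf hz
    apply LGP_dvd
    by_contra hne
    obtain ⟨u, hu, hne'⟩ := hG e (LGP_res r f) he (LGP_res_hom r e f hf) hne
    apply hne'
    rw [LGP_res_eval]
    exact hz u hu
  obtain ⟨ε, hε, hcoef, hdeg⟩ := hCH1 r Mer x
  have hx0 : x 0 ≠ 0 := hx.ne_zero 0
  set P := Pool.Agent.Work.MP_f82ddf_M5.chow 1 1
    (map (algebraMap ℂ Mer) (X (Fin.last (r + 1)) : MvPolynomial (Fin (r + 2)) ℂ))
    (Pool.Agent.Work.MP_f82ddf_M5.comb (algebraMap ℂ Mer)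
      (fun i => (X i.castSucc : MvPolynomial (Fin (r + 2)) ℂ)) x) with hPdef
  have hPhi : Phi Mer 1 (X (Fin.last (r + 1)) : MvPolynomial (Fin (r + 2)) ℂ)
      (fun i => X i.castSucc) x = P := rfl
  have hP0 : P ≠ 0 := by
    intro h0
    have h1 := hcoef 0
    rw [h0, coeff_zero] at h1
    exact (mul_ne_zero hε hx0) h1.symm
  have hMov : Mov P := by
    intro c' G hPG
    have hz : ∀ i : Fin (r + 1), ∃ z : ℂ, ε * x i = c' * algebraMap ℂ Mer z := by
      intro i
      refine ⟨coeff (Finsupp.single ((0 : Fin 2), Fin.last (r + 1)) 1 +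
        Finsupp.single ((1 : Fin 2), i.castSucc) 1) G, ?_⟩
      rw [← hcoef i, hPG, coeff_C_mul, coeff_map]
    obtain ⟨z0, hz0⟩ := hz 0
    obtain ⟨z1, hz1⟩ := hz (Fin.last r)
    have h01 : (0 : Fin (r + 1)) ≠ Fin.last r := by
      intro h
      have := congrArg Fin.val h
      rw [Fin.val_zero, Fin.val_last] at this
      omega
    have hli : LinearIndependent ℂ ![x 0, x (Fin.last r)] := by
      have h1 := hx.comp ![0, Fin.last r] (by
        intro i j hij
        fin_cases i <;> fin_cases j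
        · rfl
        · exact absurd hij h01
        · exact absurd hij.symm h01
        · rfl)
      have h2 : x ∘ ![0, Fin.last r] = ![x 0, x (Fin.last r)] := by
        funext i
        fin_cases i <;> rfl
      rw [h2] at h1
      exact h1
    have h2 : z1 • x 0 + (-z0) • x (Fin.last r) = 0 := by
      have h3 : ε * (z1 • x 0 + (-z0) • x (Fin.last r)) = 0 := by
        rw [Algebra.smul_def, Algebra.smul_def, map_neg]
        linear_combination (algebraMap ℂ Mer z1) * hz0 - (algebraMap ℂ Mer z0) * hz1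
      exact (mul_eq_zero.1 h3).resolve_left hε
    have h3 := (LinearIndependent.pair_iff.1 hli) z1 (-z0) h2
    have h4 : z0 = 0 := neg_eq_zero.1 h3.2
    rw [h4, map_zero, mul_zero] at hz0
    exact (mul_ne_zero hε hx0) hz0
  obtain ⟨Pi, hirr, -, hsq⟩ := hβ _ _ S (LGP_lift r) hHyp hdiv hS hv x hx hPer hFul
    (by rw [hPhi]; exact hMov)
  rw [hPhi] at hsq
  exact LGF_sq P Pi hP0 hdeg hirr hsq

end Pool.MPV
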