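import Pool.Agent.Work.MP_f82ddf_V.Interface

set_option autoImplicit false

/-! # THEOREM V: block MPF (points of `X` with values in `Mer`) -/

open Pool.Agent.Work.MP_f82ddf_nt.DQ

namespace Pool.MPV

open MvPolynomial
open Pool.Agent.Work.MP_f82ddf_nt (PSpace HolomorphicOn complexPoints KobayashiHyperbolic)
open Pool.ThmP (Mor OnX OnK tm)
open Pool.MPL (RX NC aq ae NPr Spn ExcSet Onto)

theorem p_MPF (hUEF : Stmt_UEF) (hSLO : Pool.MPL.Stmt_SLO) (hMPT : Pool.ThmP.Stmt_MPT)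
    (hORF : Stmt_ORF) (hFIB : Pool.ThmP.Stmt_FIB) (hCST : Pool.ThmM0.Stmt_CST) : Stmt_MPF := by
  intro n c hn
  obtain ⟨N₁, hN₁⟩ := hUEF n c hn
  refine ⟨c + c * N₁, ?_⟩
  intro Ω _ _ _ N l hN hl
  obtain ⟨S₁, hNPr, hcard, hlj, hSpn⟩ := hSLO Ω n c N N₁ l hn hl (by omega)
  obtain ⟨e, D, -, hD, hD0, hDx⟩ := hN₁ Ω S₁ hNPr hSpn hcard
  refine ⟨e, D, hD, hD0, ?_⟩
  intro K _ _ m S hS g hg hful τ x hx hnc s hs
  obtain ⟨i₀, i, hi₀, hi⟩ := hnc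
  obtain ⟨M1, M2⟩ := hMPT K Ω Mer m n S g (tm τ) x hx
  have hx0 : x ≠ 0 := fun h => hi₀ (congrFun h i₀)
  obtain ⟨s₀, hs₀, c₀, hc₀⟩ := M1 hx0
  -- the image is not constant
  have hNC : ∃ j, ∀ z : ℂ, eval₂ (tm τ) x (s₀ j) ≠ algebraMap ℂ Mer z * eval₂ (tm τ) x (s₀ c₀) := by
    by_contra hcon
    push Not at hcon
    have h1 := hFIB K Ω m n S g hS hg τ x hx s₀ hs₀ c₀ hc₀ i i₀ hi₀
    obtain ⟨z, hz⟩ := hCST n (fun c => eval₂ (tm τ) x (s₀ c)) c₀ hc₀ hcon _ h1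
    exact hi z ((div_eq_iff hi₀).1 hz)
  obtain ⟨j₁, hj₁⟩ := hNC
  have hNCx : NC (fun c => eval₂ (tm τ) x (s₀ c)) := ⟨c₀, j₁, hc₀, hj₁⟩
  have hmult : ∀ u ∈ S₁, Ful 2 (fun c => eval₂ (tm τ) x (s₀ c)) (fun i => τ (u i)) := by
    intro u hu
    obtain ⟨j, hj⟩ := hlj u hu
    have hd : Full g 2 u := by rw [← hj]; exact hful j
    exact hORF K Ω m n 2 S g hS τ x hx s₀ hs₀ ⟨c₀, hc₀⟩ u hd
  have hDx' := hDx τ _ hNCx hmult
  -- all the tuples are proportional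
  have hprop : (fun c => eval₂ (tm τ) x (s c)) =
      (eval₂ (tm τ) x (s c₀) / eval₂ (tm τ) x (s₀ c₀)) •
        fun c => eval₂ (tm τ) x (s₀ c) := by
    funext d
    have h1 := M2 s hs s₀ hs₀ d c₀
    rw [Pi.smul_apply, smul_eq_mul]
    field_simp
    linear_combination h1
  rw [hprop, Pool.Agent.Work.MP_f82ddf_nt.eval₂_smul_hom hD, hDx', mul_zero]

end Pool.MPV
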