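import Pool.Agent.Work.MP_f82ddf_V.Interface
import Pool.Agent.Work.MP_f82ddf_M.C_NOD

set_option autoImplicit false

/-! # THEOREM V, block NOF: the node lemma for multiplicities -/

open Pool.Agent.Work.MP_f82ddf_nt.DQ

namespace Pool.MPV

open MvPolynomial
open Pool.ThmM (vP om)
open Pool.ThmM.Chow (subC NOD_C NOD_map NOD_pow NOD_prod NOD_top NOD_sum NOD_sum_top NOD_one_of)

theorem p_NOF : Pool.ThmM.Stmt_VAL → Pool.ThmM.Stmt_GAU → Pool.ThmM.Chow.Stmt_LSB →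
    Pool.ThmM.Chow.Stmt_FNC → Stmt_NOF := by
  classical
  intro hV hG hL hF σ τ _ _ g k c Fix s m z a b hm h1 h2 hab h3
  have hm0 : ∀ P ∈ s, m P ≠ 0 := fun P hP => Nat.one_le_iff_ne_zero.1 (hm P hP).1
  have hle : ∀ P : MvPolynomial σ Mer, vP P z ≤ vP (subC Mer g P) z := fun P =>
    ((hL σ P).2 τ g).1 z
  have hC : subC Mer g (C c) = C c := by
    unfold subC
    rw [coe_eval₂Hom, eval₂_C]
  -- the orders of the products
  rw [hG, hG, NOD_prod hV hG, NOD_C hV] at h1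
  rw [map_mul, map_mul, map_prod, hG, hG, NOD_prod hV hG, hC, NOD_C hV, hF.2.2.1] at h2
  simp only [map_pow, NOD_pow hV hG] at h1 h2
  rw [map_prod, NOD_prod hV hG, NOD_prod hV hG] at h3
  have t1 : om c z + vP (map (algebraMap ℂ Mer) Fix) z + ∑ P ∈ s, m P • vP P z ≠ ⊤ := by
    rw [h1]; exact WithTop.coe_ne_top
  have t2 : om c z + vP (map (algebraMap ℂ Mer) (aeval g Fix)) z +
      ∑ P ∈ s, m P • vP (subC Mer g P) z ≠ ⊤ := by rw [h2]; exact WithTop.coe_ne_top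
  obtain ⟨t5, t4⟩ := WithTop.add_ne_top.1 t1
  obtain ⟨t7, t8⟩ := WithTop.add_ne_top.1 t5
  obtain ⟨u5, u4⟩ := WithTop.add_ne_top.1 t2
  obtain ⟨u7, u8⟩ := WithTop.add_ne_top.1 u5
  have e1 : vP (map (algebraMap ℂ Mer) Fix) z = 0 := (NOD_map hV Fix z).resolve_right t8
  have e2 : vP (map (algebraMap ℂ Mer) (aeval g Fix)) z = 0 :=
    (NOD_map hV (aeval g Fix) z).resolve_right u8
  obtain ⟨c0, hc0⟩ := WithTop.ne_top_iff_exists.1 t7
  have hα : ∀ P : MvPolynomial σ Mer, ∃ α : ℤ, P ∈ s → vP P z = (α : WithTop ℤ) := by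
    intro P
    by_cases hP : P ∈ s
    · obtain ⟨α, h⟩ := WithTop.ne_top_iff_exists.1 (NOD_top (hm0 P hP) (NOD_sum_top s _ t4 P hP))
      exact ⟨α, fun _ => h.symm⟩
    · exact ⟨0, fun h => absurd h hP⟩
  have hβ : ∀ P : MvPolynomial σ Mer, ∃ β : ℤ, P ∈ s → vP (subC Mer g P) z = (β : WithTop ℤ) := by
    intro P
    by_cases hP : P ∈ s
    · obtain ⟨β, h⟩ := WithTop.ne_top_iff_exists.1 (NOD_top (hm0 P hP) (NOD_sum_top s _ u4 P hP))
      exact ⟨β, fun _ => h.symm⟩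
    · exact ⟨0, fun h => absurd h hP⟩
  choose α hα using hα
  choose β hβ using hβ
  rw [e1, add_zero, ← hc0, NOD_sum s _ α m hα, ← WithTop.coe_add] at h1
  rw [e2, add_zero, ← hc0, NOD_sum s _ β m hβ, ← WithTop.coe_add] at h2
  have h1' : c0 + ∑ P ∈ s, (m P : ℤ) * α P = a := by exact_mod_cast h1
  have h2' : c0 + ∑ P ∈ s, (m P : ℤ) * β P = b := by exact_mod_cast h2
  have e3 : ∑ P ∈ s, vP P z = ((∑ P ∈ s, α P : ℤ) : WithTop ℤ) := by
    have := NOD_sum s (fun P => vP P z) α (fun _ => 1) hα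
    simpa using this
  have e4 : ∑ P ∈ s, vP (subC Mer g P) z = ((∑ P ∈ s, β P : ℤ) : WithTop ℤ) := by
    have := NOD_sum s (fun P => vP (subC Mer g P) z) β (fun _ => 1) hβ
    simpa using this
  rw [e3, e4] at h3
  have h3' : ∑ P ∈ s, β P = ∑ P ∈ s, α P + 1 := by exact_mod_cast h3
  have hαβ : ∀ P ∈ s, 0 ≤ β P - α P := by
    intro P hP
    have h4 := hle P
    rw [hα P hP, hβ P hP] at h4
    have h5 : α P ≤ β P := by exact_mod_cast h4
    linarith
  obtain ⟨P₀, hP₀, g1, g2⟩ := NOD_one_of s (fun P => β P - α P) hαβ (by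
    rw [Finset.sum_sub_distrib]
    linarith)
  have h6 : ∑ P ∈ s, (m P : ℤ) * (β P - α P) = m P₀ := by
    rw [Finset.sum_eq_single P₀]
    · rw [g1, mul_one]
    · intro P hP hne
      rw [g2 P hP hne, mul_zero]
    · intro h; exact absurd hP₀ h
  have h7 : ∑ P ∈ s, (m P : ℤ) * (β P - α P) =
      ∑ P ∈ s, (m P : ℤ) * β P - ∑ P ∈ s, (m P : ℤ) * α P := by
    rw [← Finset.sum_sub_distrib]
    exact Finset.sum_congr rfl fun P _ => by ring
  have h8 : (m P₀ : ℤ) = b - a := by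
    rw [← h6, h7]
    linear_combination h2' - h1'
  obtain ⟨k1, k2⟩ := hm P₀ hP₀
  rcases hab with h | h
  · omega
  · omega

end Pool.MPV
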