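import Pool.Agent.Work.MP_f82ddf_V.Interface

set_option autoImplicit false

/-! # Block ORF: the multiplicities of the point `g(x)` -/

namespace Pool.MPV

open MvPolynomial Finset Pool.Agent.Work.MP_f82ddf_nt Pool.Agent.Work.MP_f82ddf_nt.DQ Pool.ThmM
  Pool.ThmM0 Pool.ThmP

/-- homogeneous forms at a multiple of a point -/
private theorem ORF_smul {R κ σ : Type} [CommSemiring R] [CommSemiring κ] (φ : R →+* κ)
    {F : MvPolynomial σ R} {e : ℕ} (hF : F.IsHomogeneous e) (c : κ) (x : σ → κ) :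
    eval₂ φ (fun i => c * x i) F = c ^ e * eval₂ φ x F := by
  rw [eval₂_eq, eval₂_eq, Finset.mul_sum]
  refine Finset.sum_congr rfl fun m hm => ?_
  have hd : ∑ i ∈ m.support, m i = e := by
    have h := hF (mem_support_iff.1 hm)
    rw [← h, Finsupp.weight_apply, Finsupp.sum]
    simp
  have h1 : ∏ i ∈ m.support, (c * x i) ^ m i = c ^ e * ∏ i ∈ m.support, x i ^ m i := by
    simp only [mul_pow]
    rw [Finset.prod_mul_distrib, Finset.prod_pow_eq_pow_sum, hd]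
  rw [h1]
  ring

/-- a point with values in the local ring -/
private theorem ORF_loc {R σ : Type} [Field R] (φ : R →+* ℂ) (O : Subalgebra ℂ Mer)
    (θ : O →ₐ[ℂ] ℂ) (x : σ → O) (F : MvPolynomial σ R) :
    ∃ h : eval₂ ((algebraMap ℂ Mer).comp φ) (fun i => (x i : Mer)) F ∈ O,
      θ ⟨eval₂ ((algebraMap ℂ Mer).comp φ) (fun i => (x i : Mer)) F, h⟩ =
        eval₂ φ (fun i => θ (x i)) F := by
  have h1 : ((eval₂ ((algebraMap ℂ O).comp φ) x F : O) : Mer) =
      eval₂ ((algebraMap ℂ Mer).comp φ) (fun i => (x i : Mer)) F := by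
    have h := eval₂_comp_left (O.val : O →+* Mer) ((algebraMap ℂ O).comp φ) x F
    exact h
  have h2 : eval₂ ((algebraMap ℂ Mer).comp φ) (fun i => (x i : Mer)) F ∈ O :=
    h1 ▸ (eval₂ ((algebraMap ℂ O).comp φ) x F : O).2
  refine ⟨h2, ?_⟩
  have h3 : (⟨eval₂ ((algebraMap ℂ Mer).comp φ) (fun i => (x i : Mer)) F, h2⟩ : O) =
      eval₂ ((algebraMap ℂ O).comp φ) x F := Subtype.ext h1.symm
  rw [h3]
  have h := eval₂_comp_left (θ : O →+* ℂ) ((algebraMap ℂ O).comp φ) x F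
  have h4 : ((θ : O →+* ℂ).comp ((algebraMap ℂ O).comp φ)) = φ := by
    ext a
    simp
  rw [h4] at h
  exact h

/-- nonnegative orders are `0` or at least `1` -/
private theorem ORF_cases {a : WithTop ℤ} (h : 0 ≤ a) : a = 0 ∨ 1 ≤ a := by
  induction a using WithTop.recTopCoe with
  | top => exact Or.inr le_top
  | coe a =>
    have h3 : (0 : ℤ) ≤ a := by exact_mod_cast h
    rcases (by omega : a = 0 ∨ 1 ≤ a) with h4 | h4
    · left
      rw [h4]
      rfl
    · right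
      exact_mod_cast h4

private theorem ORF_om_zero {z : ℂ} {O : Subalgebra ℂ Mer} {θ : O →ₐ[ℂ] ℂ}
    (h : Pool.ThmM.Chow.LocAt z O θ) (f : O) (hf : θ f ≠ 0) : om (f : Mer) z = 0 := by
  rcases ORF_cases ((h.mem _).1 f.2) with h1 | h1
  · exact h1
  · exact absurd ((h.zero f).2 h1) hf

/-- the order of a power -/
private theorem ORF_pow (hV : Pool.ThmM.Stmt_VAL) (f : Mer) (z : ℂ) (h : 0 ≤ om f z) (k j : ℕ)
    (hk : k ≤ j) : om (f ^ j) z = 0 ∨ ((k : ℤ) : WithTop ℤ) ≤ om (f ^ j) z := by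
  obtain ⟨v1, v2, v3, v4, v5, v6⟩ := hV z
  rcases ORF_cases h with h1 | h1
  · left
    clear hk
    induction j with
    | zero =>
      have h := v4 1 one_ne_zero
      rw [map_one] at h
      rw [pow_zero, h]
    | succ j ih => rw [pow_succ, v1, ih, h1, add_zero]
  · right
    have h2 : ∀ j : ℕ, ((j : ℤ) : WithTop ℤ) ≤ om (f ^ j) z := by
      intro j
      induction j with
      | zero =>
        have h := v4 1 one_ne_zero
        rw [map_one] at h
        rw [pow_zero, h]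
        simp
      | succ j ih =>
        rw [pow_succ, v1]
        have h3 : (((j + 1 : ℕ) : ℤ) : WithTop ℤ) = ((j : ℤ) : WithTop ℤ) + 1 := by
          push_cast
          rfl
        rw [h3]
        exact add_le_add ih h1
    refine le_trans ?_ (h2 j)
    exact_mod_cast hk

/-- the order of a product of powers -/
private theorem ORF_prod (hV : Pool.ThmM.Stmt_VAL) {t : ℕ} (f : Fin t → Mer) (z : ℂ)
    (h : ∀ i, 0 ≤ om (f i) z) (k : ℕ) (μ : Fin t → ℕ) (hk : ∀ i, k ≤ μ i) :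
    om (∏ i, f i ^ μ i) z = 0 ∨ ((k : ℤ) : WithTop ℤ) ≤ om (∏ i, f i ^ μ i) z := by
  classical
  obtain ⟨v1, v2, v3, v4, v5, v6⟩ := hV z
  have hk0 : (0 : WithTop ℤ) ≤ ((k : ℤ) : WithTop ℤ) := by
    exact_mod_cast Nat.zero_le k
  have key : ∀ s : Finset (Fin t), om (∏ i ∈ s, f i ^ μ i) z = 0 ∨
      ((k : ℤ) : WithTop ℤ) ≤ om (∏ i ∈ s, f i ^ μ i) z := by
    intro s
    induction s using Finset.induction_on with
    | empty =>
      left
      have h := v4 1 one_ne_zero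
      rw [map_one] at h
      rw [Finset.prod_empty, h]
    | insert i s hi ih =>
      rw [Finset.prod_insert hi, v1]
      rcases ORF_pow hV (f i) z (h i) k (μ i) (hk i) with h1 | h1
      · rw [h1, zero_add]
        exact ih
      · right
        rcases ih with h2 | h2
        · rw [h2, add_zero]
          exact h1
        · refine le_trans h1 (le_add_of_nonneg_right (le_trans hk0 h2))
  exact key _

theorem p_ORF (hNUL : Pool.ThmP.Stmt_NUL) (hMPT : Pool.ThmP.Stmt_MPT)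
    (hV : Pool.ThmM.Stmt_VAL) (hD : Pool.ThmM.Stmt_ORD) (hO : Pool.ThmM.Chow.Stmt_OZE) :
    Stmt_ORF := by
  classical
  intro K Ω _ _ _ _ m n k S g hS τ x hx s hs hsx l hl z₀
  obtain ⟨v1, v2, v3, v4, v5, v6⟩ := hV z₀
  obtain ⟨O, θ, hOθ⟩ := hO z₀
  obtain ⟨e, hse⟩ := g.homogeneous s hs
  -- the tuple of the image
  have hy0 : (fun c => eval₂ (tm τ) x (s c)) ≠ 0 := by
    obtain ⟨c, hc⟩ := hsx
    exact fun h => hc (congrFun h c)
  obtain ⟨hD1, c₂, hc₂0, hD2⟩ := (hD (Fin (n + 1)) (fun c => eval₂ (tm τ) x (s c))).2 hy0 z₀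
  change eval₂ (tm τ) x (s c₂) ≠ 0 at hc₂0
  change dv1 (eval₂ (tm τ) x (s c₂)) z₀ = _ at hD2
  have hc₂ : ∀ c, om (eval₂ (tm τ) x (s c₂)) z₀ ≤ om (eval₂ (tm τ) x (s c)) z₀ := by
    intro c
    by_cases hc : eval₂ (tm τ) x (s c) = 0
    · rw [(v3 _).2 hc]
      exact le_top
    · rw [v5 _ hc₂0, v5 _ hc, hD2]
      exact_mod_cast hD1 c hc
  have hd : om (eval₂ (tm τ) x (s c₂)) z₀ =
      ((dv (fun c => eval₂ (tm τ) x (s c)) z₀ : ℤ) : WithTop ℤ) := by
    rw [v5 _ hc₂0, hD2]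
  -- the reduction to an equation
  suffices H : ∃ w : Mer, om (∑ c, tm τ (l c) * eval₂ (tm τ) x (s c)) z₀ =
      om (eval₂ (tm τ) x (s c₂)) z₀ + om w z₀ ∧
      (om w z₀ = 0 ∨ ((k : ℤ) : WithTop ℤ) ≤ om w z₀) by
    obtain ⟨w, h1, h2⟩ := H
    have h3 : ∑ i, algebraMap ℂ Mer (τ (l i)) * eval₂ (tm τ) x (s i) =
        ∑ c, tm τ (l c) * eval₂ (tm τ) x (s c) := rfl
    change om (∑ i, algebraMap ℂ Mer (τ (l i)) * eval₂ (tm τ) x (s i)) z₀ = _ ∨
      _ ≤ om (∑ i, algebraMap ℂ Mer (τ (l i)) * eval₂ (tm τ) x (s i)) z₀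
    rw [h3, h1, hd]
    rcases h2 with h2 | h2
    · left
      rw [h2, add_zero]
    · right
      rw [WithTop.coe_add]
      gcongr
  -- the point zero
  by_cases hx0 : x = 0
  · have h1 : ∀ F : MvPolynomial (Fin (m + 1)) Ω,
        eval₂ (tm τ) x F = algebraMap ℂ Mer (τ (constantCoeff F)) := by
      intro F
      rw [hx0, ← coe_eval₂Hom, eval₂Hom_zero_apply]
      rfl
    have h2 : ∑ c, tm τ (l c) * eval₂ (tm τ) x (s c) =
        algebraMap ℂ Mer (∑ c, τ (l c) * τ (constantCoeff (s c))) := by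
      rw [map_sum]
      refine Finset.sum_congr rfl fun c _ => ?_
      rw [h1, map_mul]
      rfl
    have h3 : om (eval₂ (tm τ) x (s c₂)) z₀ = 0 := by
      rw [h1] at hc₂0 ⊢
      exact v4 _ (fun h => hc₂0 (by rw [h, map_zero]))
    refine ⟨∑ c, tm τ (l c) * eval₂ (tm τ) x (s c), by rw [h3, zero_add], ?_⟩
    rw [h2]
    by_cases h4 : ∑ c, τ (l c) * τ (constantCoeff (s c)) = 0
    · right
      rw [h4, map_zero, (v3 0).2 rfl]
      exact le_top
    · left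
      exact v4 _ h4
  -- a coordinate of minimal order
  obtain ⟨i₁, -, hi₁⟩ := Finset.exists_min_image (Finset.univ : Finset (Fin (m + 1)))
    (fun i => om (x i) z₀) Finset.univ_nonempty
  have hxi : x i₁ ≠ 0 := by
    intro h0
    apply hx0
    funext i
    have h := hi₁ i (Finset.mem_univ _)
    rw [(v3 (x i₁)).2 h0, top_le_iff, v3] at h
    exact h
  have hfin : om (x i₁) z₀ ≠ ⊤ := fun h => hxi ((v3 _).1 h)
  have hx'0 : ∀ i, 0 ≤ om ((x i₁)⁻¹ * x i) z₀ := by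
    intro i
    have h1 : om ((x i₁)⁻¹ * x i) z₀ + om (x i₁) z₀ = om (x i) z₀ := by
      rw [← v1]
      congr 1
      field_simp
    have h2 := hi₁ i (Finset.mem_univ _)
    change om (x i₁) z₀ ≤ om (x i) z₀ at h2
    rw [← h1] at h2
    by_contra h3
    rw [not_le] at h3
    have h4 := WithTop.add_lt_add_right hfin h3
    rw [zero_add] at h4
    exact absurd h4 (not_lt.2 h2)
  -- the point with values in the local ring
  obtain ⟨xo, hxo⟩ : ∃ xo : Fin (m + 1) → O, ∀ i, (xo i : Mer) = (x i₁)⁻¹ * x i :=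
    ⟨fun i => ⟨(x i₁)⁻¹ * x i, (hOθ.mem _).2 (hx'0 i)⟩, fun _ => rfl⟩
  have hxo' : (fun i => (xo i : Mer)) = fun i => (x i₁)⁻¹ * x i := funext hxo
  obtain ⟨x', hx'⟩ : ∃ x' : Fin (m + 1) → Mer, x' = fun i => (x i₁)⁻¹ * x i := ⟨_, rfl⟩
  have hxx : x = fun i => x i₁ * x' i := by
    funext i
    rw [hx']
    field_simp
  have hK' : OnK (tm τ) S x' := by
    intro F hF
    obtain ⟨d, hd⟩ := hS F hF
    rw [hx', ORF_smul _ hd, hx F hF, mul_zero]
  obtain ⟨p, hp⟩ : ∃ p : Fin (m + 1) → ℂ, p = fun i => θ (xo i) := ⟨_, rfl⟩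
  have hp1 : p i₁ = 1 := by
    have h1 : xo i₁ = 1 := by
      apply Subtype.ext
      rw [hxo]
      exact inv_mul_cancel₀ hxi
    rw [hp]
    change θ (xo i₁) = 1
    rw [h1, map_one]
  have hev : ∀ F : MvPolynomial (Fin (m + 1)) Ω, ∃ f : O, (f : Mer) = eval₂ (tm τ) x' F ∧
      θ f = eval₂ τ p F := by
    intro F
    obtain ⟨h1, h2⟩ := ORF_loc τ O θ xo F
    refine ⟨⟨_, h1⟩, ?_, ?_⟩
    · change eval₂ ((algebraMap ℂ Mer).comp τ) (fun i => (xo i : Mer)) F = _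
      rw [hxo', hx']
      rfl
    · rw [h2, hp]
  have hev0 : ∀ F : MvPolynomial (Fin (m + 1)) Ω, 0 ≤ om (eval₂ (tm τ) x' F) z₀ := by
    intro F
    obtain ⟨f, hf, -⟩ := hev F
    rw [← hf]
    exact (hOθ.mem _).1 f.2
  have hKp : OnK τ S p := by
    intro F hF
    obtain ⟨h1, h2⟩ := ORF_loc (τ.comp (algebraMap K Ω)) O θ xo F
    rw [← hp] at h2
    rw [← h2]
    have h3 : (⟨eval₂ ((algebraMap ℂ Mer).comp (τ.comp (algebraMap K Ω)))
        (fun i => (xo i : Mer)) F, h1⟩ : O) = 0 := by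
      apply Subtype.ext
      change eval₂ ((algebraMap ℂ Mer).comp (τ.comp (algebraMap K Ω)))
        (fun i => (xo i : Mer)) F = 0
      rw [hxo', ← hx']
      exact hK' F hF
    rw [h3, map_zero]
  -- a local equation at the point `p`
  obtain ⟨s', hs', c₁, t, a, b, μ, hμ, hab, hne⟩ : ∃ s' ∈ g.tuples, ∃ (c₁ : Fin (n + 1)) (t : ℕ)
      (a : MvPolynomial (Fin (m + 1)) Ω) (b : Fin t → MvPolynomial (Fin (m + 1)) Ω)
      (μ : Fin t → ℕ), (∀ i, k ≤ μ i) ∧
      (∀ u, OnX S u → eval u a * ∑ c, l c * eval u (s' c) = ∏ i, eval u (b i) ^ μ i) ∧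
      eval₂ τ p (a * s' c₁) ≠ 0 := by
    by_contra hcon
    push Not at hcon
    have h1 := hNUL K Ω ℂ m S {H | ∃ s' ∈ g.tuples, ∃ (c₁ : Fin (n + 1)) (t : ℕ)
      (a : MvPolynomial (Fin (m + 1)) Ω) (b : Fin t → MvPolynomial (Fin (m + 1)) Ω)
      (μ : Fin t → ℕ), (∀ i, k ≤ μ i) ∧
      (∀ u, OnX S u → eval u a * ∑ c, l c * eval u (s' c) = ∏ i, eval u (b i) ^ μ i) ∧
      H = a * s' c₁} (X i₁) ?_ τ p hKp ?_
    · rw [eval₂_X, hp1] at h1
      exact one_ne_zero h1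
    · intro v hv hE
      rw [eval_X]
      by_contra hvi
      have hv0 : v ≠ 0 := by
        rintro rfl
        exact hvi rfl
      obtain ⟨s', hs', ⟨c₁, hc₁⟩, d, t, a, b, e', μ, -, -, hμ, ha, hab⟩ := hl v hv0 hv
      have h2 := hE (a * s' c₁) ⟨s', hs', c₁, t, a, b, μ, hμ, hab, rfl⟩
      rw [map_mul] at h2
      exact (mul_ne_zero ha hc₁) h2
    · rintro H ⟨s', hs', c₁, t, a, b, μ, hμ, hab, rfl⟩
      exact hcon s' hs' c₁ t a b μ hμ hab
  rw [eval₂_mul] at hne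
  obtain ⟨hne1, hne2⟩ := mul_ne_zero_iff.1 hne
  obtain ⟨fa, hfa, hfa'⟩ := hev a
  obtain ⟨fs, hfs, hfs'⟩ := hev (s' c₁)
  have hoa : om (eval₂ (tm τ) x' a) z₀ = 0 := by
    rw [← hfa]
    exact ORF_om_zero hOθ fa (by rw [hfa']; exact hne1)
  have hos : om (eval₂ (tm τ) x' (s' c₁)) z₀ = 0 := by
    rw [← hfs]
    exact ORF_om_zero hOθ fs (by rw [hfs']; exact hne2)
  -- the equation in `Mer`
  have hEq : eval₂ (tm τ) x' a * ∑ c, tm τ (l c) * eval₂ (tm τ) x' (s' c) =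
      ∏ i, eval₂ (tm τ) x' (b i) ^ μ i := by
    have h1 := hNUL K Ω Mer m S ∅ (a * ∑ c, C (l c) * s' c - ∏ i, b i ^ μ i) ?_ (tm τ) x' hK' ?_
    · have h2 : eval₂ (tm τ) x' (∑ c, C (l c) * s' c) =
          ∑ c, tm τ (l c) * eval₂ (tm τ) x' (s' c) := by
        rw [eval₂_sum]
        refine Finset.sum_congr rfl fun c _ => ?_
        rw [eval₂_mul, eval₂_C]
      have h3 : eval₂Hom (tm τ) x' (∏ i, b i ^ μ i) = ∏ i, eval₂ (tm τ) x' (b i) ^ μ i := by
        rw [map_prod]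
        refine Finset.prod_congr rfl fun i _ => ?_
        rw [map_pow, coe_eval₂Hom]
      rw [← coe_eval₂Hom, map_sub, map_mul, h3, coe_eval₂Hom, h2] at h1
      exact sub_eq_zero.1 h1
    · intro v hv _
      have h2 := hab v hv
      rw [map_sub, map_mul, map_sum, map_prod]
      simp only [map_mul, eval_C, map_pow]
      rw [h2]
      exact sub_self _
    · intro H hH
      exact absurd hH (Set.notMem_empty _)
  -- proportionality
  have hsc : ∀ c, eval₂ (tm τ) x (s c) = x i₁ ^ e * eval₂ (tm τ) x' (s c) := by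
    intro c
    conv_lhs => rw [hxx]
    exact ORF_smul _ (hse c) _ _
  have hprop : ∀ c, eval₂ (tm τ) x (s c) * eval₂ (tm τ) x' (s' c₁) =
      eval₂ (tm τ) x (s c₁) * eval₂ (tm τ) x' (s' c) := by
    intro c
    have h1 := (hMPT K Ω Mer m n S g (tm τ) x' hK').2 s hs s' hs' c c₁
    rw [hsc, hsc, mul_assoc, h1, mul_assoc]
  have hzw : (∑ c, tm τ (l c) * eval₂ (tm τ) x (s c)) * eval₂ (tm τ) x' (s' c₁) =
      eval₂ (tm τ) x (s c₁) * ∑ c, tm τ (l c) * eval₂ (tm τ) x' (s' c) := by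
    rw [Finset.sum_mul, Finset.mul_sum]
    refine Finset.sum_congr rfl fun c _ => ?_
    rw [mul_assoc, hprop]
    ring
  have how : om (∑ c, tm τ (l c) * eval₂ (tm τ) x' (s' c)) z₀ =
      om (∏ i, eval₂ (tm τ) x' (b i) ^ μ i) z₀ := by
    have h1 := congrArg (fun f => om f z₀) hEq
    change om _ z₀ = om _ z₀ at h1
    rw [v1, hoa, zero_add] at h1
    exact h1
  -- the order of `s c₁` is minimal
  have hmin : om (eval₂ (tm τ) x (s c₁)) z₀ = om (eval₂ (tm τ) x (s c₂)) z₀ := by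
    apply le_antisymm
    · have h1 := congrArg (fun f => om f z₀) (hprop c₂)
      change om _ z₀ = om _ z₀ at h1
      rw [v1, v1, hos, add_zero] at h1
      rw [h1]
      exact le_add_of_nonneg_right (hev0 _)
    · exact hc₂ c₁
  refine ⟨∑ c, tm τ (l c) * eval₂ (tm τ) x' (s' c), ?_, ?_⟩
  · have h1 := congrArg (fun f => om f z₀) hzw
    change om _ z₀ = om _ z₀ at h1
    rw [v1, v1, hos, add_zero, hmin] at h1
    exact h1
  · rw [how]
    exact ORF_prod hV _ z₀ (fun i => hev0 _) k μ hμ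

end Pool.MPV
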