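import Pool.Agent.Work.MP_f82ddf_V.Interface
import Pool.Agent.Work.MP_f82ddf_U.B_PTS
import Pool.Agent.Work.MP_f82ddf_M1.All1

set_option autoImplicit false

/-! # THEOREM V, block PTF (helper22): the result for all the conjugates -/

open Pool.Agent.Work.MP_f82ddf_nt.DQ

namespace Pool.MPV

open MvPolynomial
open Pool.Agent.Work.MP_f82ddf_M5 (lineAt resAt chow at2 comb Data)
open Pool.ThmM (NonProp HypData IsRat om dv dv1 vP)
open Pool.ThmM0 (Per)
open Pool.ThmM.Chow (ppt Phi Mov)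
open Pool.MPL (RX NC aq ae NPr Spn ExcSet Onto PTS_comp)

private theorem PTF_comp (α : ℂ ≃+* ℂ) {N : ℕ} (e : ℕ) (D : MvPolynomial (Fin N) ℂ) :
    homogeneousComponent e (aq α D) = aq α (homogeneousComponent e D) := by
  ext m
  rw [aq, aq, coeff_homogeneousComponent, coeff_map, coeff_map, coeff_homogeneousComponent]
  split_ifs
  · rfl
  · exact (map_zero _).symm

private theorem PTF_om {t : ℂ} (ht : t ≠ 0) (f : Mer) (z : ℂ) :
    om (algebraMap ℂ Mer t * f) z = om f z := by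
  obtain ⟨h1, -, -, h4, -, -⟩ := Pool.ThmM.all_VAL z
  rw [h1, h4 t ht, zero_add]

private theorem PTF_dv {n : ℕ} {t : ℂ} (ht : t ≠ 0) (x : Fin (n + 1) → Mer) (z : ℂ) :
    dv (fun i => algebraMap ℂ Mer t * x i) z = dv x z := by
  have ht' : algebraMap ℂ Mer t ≠ 0 := (map_ne_zero _).2 ht
  by_cases hx : x = 0
  · have : (fun i => algebraMap ℂ Mer t * x i) = x := by
      funext i
      simp [hx]
    rw [this]
  have hd : ∀ i, x i ≠ 0 → dv1 (algebraMap ℂ Mer t * x i) z = dv1 (x i) z := by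
    intro i hi
    rw [Pool.ThmM.all_DV1.1 _ _ ht' hi, Pool.ThmM.all_DV1.2.2.1 t ht, zero_add]
  have hx' : (fun i => algebraMap ℂ Mer t * x i) ≠ 0 := by
    intro h
    apply hx
    funext i
    have := congrFun h i
    exact (mul_eq_zero.1 this).resolve_left ht'
  obtain ⟨h1, i, hi, hi2⟩ := (Pool.ThmM.all_ORD _ x).2 hx z
  obtain ⟨h3, j, hj, hj2⟩ := (Pool.ThmM.all_ORD _ (fun i => algebraMap ℂ Mer t * x i)).2 hx' z
  have hj0 : x j ≠ 0 := fun h => hj (by simp [h])
  apply le_antisymm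
  · have := h3 i (mul_ne_zero ht' hi)
    rw [hd i hi, hi2] at this
    exact this
  · have := h1 j hj0
    rw [← hd j hj0, hj2] at this
    exact this

theorem p_PTF (hT3 : Pool.ThmM.Stmt_T3) (hDRF : Stmt_DRF) (hUNB : Stmt_UNB)
    (hTRP : Pool.MPL.Stmt_TRP) (hEXF : Stmt_EXF) (hMVP : Pool.MPL.Stmt_MVP) : Stmt_PTF := by
  classical
  intro n c hn
  obtain ⟨β, hβ0, hβ⟩ := hDRF n c
  obtain ⟨N₁, dmax, hT⟩ := hT3 n β
  refine ⟨N₁, fun S hS hSp hcard => ?_⟩
  obtain ⟨w, d, Q, A, T, lift, hyp, -, hTS, hβT, hdiv⟩ := hT S hS hcard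
  have hSpT : Spn c T := fun U hU hc => hSp U (hU.trans hTS) hc
  have hTs : ∀ y : Fin (n + 1) → ℂ, (∀ u ∈ T, ∑ i, u i * y i = 0) → y = 0 := by
    intro y hy
    refine hSpT T (Finset.Subset.refl _) ?_ y fun u hu => ?_
    · have h3 := hβ0 w d
      omega
    · rw [← hy u hu]
      exact Finset.sum_congr rfl fun i _ => mul_comm _ _
  have hD := Pool.ThmM.Chow.CORE_data hyp hTs
  obtain ⟨D₀, hD₀, hU⟩ := hUNB (w + 2) n d Q A hn hD
  have hD₁ : D₀ * X 0 ≠ 0 := mul_ne_zero hD₀ (X_ne_zero _)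
  obtain ⟨e, he⟩ : ∃ e, homogeneousComponent e (D₀ * X 0) ≠ 0 := by
    by_contra hcon
    push Not at hcon
    apply hD₁
    rw [← sum_homogeneousComponent (D₀ * X 0)]
    exact Finset.sum_eq_zero fun i _ => hcon i
  have he1 : 1 ≤ e := by
    rcases Nat.eq_zero_or_pos e with h0 | h0
    · exfalso
      apply he
      rw [h0, homogeneousComponent_zero, coeff_mul_X']
      simp
    · exact h0
  refine ⟨e, homogeneousComponent e (D₀ * X 0), he1, homogeneousComponent_isHomogeneous _ _, he,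
    fun α x hNC hful => ?_⟩
  obtain ⟨hTR1, hTR2, hTR3, hTR4⟩ := hTRP α
  have hyp' := hTR1 n w d Q A T lift hyp
  have hdiv' := hTR2 n w (β w d) Q T lift hdiv
  have hdat' := hTR3 (w + 2) n d Q A hD
  have hSp' := hTR4 n c T hSpT
  have hβT' : β w d ≤ (T.map (ae α (n + 1))).card := by
    rw [Finset.card_map]
    exact hβT
  have hfil : ∀ v : Fin (n + 1) → ℂ, v ≠ 0 →
      ((T.map (ae α (n + 1))).filter fun u => ∑ i, v i * u i = 0).card ≤ c := by
    intro v hv
    by_contra hcon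
    exact hv (hSp' _ (Finset.filter_subset _ _) (not_le.1 hcon) v fun u hu =>
      (Finset.mem_filter.1 hu).2)
  obtain ⟨φ, hφ, hφo, hφd⟩ := hEXF
  have hinj : Function.Injective φ := (φ : Mer →+* Mer).injective
  have hkey : ∀ t : ℂ, t ≠ 0 →
      aeval (fun i => algebraMap ℂ Mer t * φ (x i)) (aq α (D₀ * X 0)) = 0 := by
    intro t ht
    have hφt : (fun i => algebraMap ℂ Mer t * φ (x i)) =
        fun i => φ (algebraMap ℂ Mer t * x i) := by
      funext i
      rw [map_mul, AlgHom.commutes]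
    have ht' : algebraMap ℂ Mer t ≠ 0 := (map_ne_zero _).2 ht
    obtain ⟨i₀, j₀, hi₀, hj₀⟩ := hNC
    have hNC' : NC (fun i => φ (algebraMap ℂ Mer t * x i)) := by
      refine ⟨i₀, j₀, (map_ne_zero _).2 (mul_ne_zero ht' hi₀), fun z hz => hj₀ z ?_⟩
      have h1 : φ (algebraMap ℂ Mer t * x j₀) =
          φ (algebraMap ℂ Mer z * (algebraMap ℂ Mer t * x i₀)) := by
        rw [map_mul φ (algebraMap ℂ Mer z), AlgHom.commutes]
        exact hz
      have h2 := hinj h1
      apply mul_left_cancel₀ ht'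
      rw [h2]
      ring
    have hx0 : (fun i => φ (algebraMap ℂ Mer t * x i)) ≠ 0 := by
      intro h
      have h1 := congrFun h i₀
      exact (map_ne_zero φ).2 (mul_ne_zero ht' hi₀) h1
    have hful' : ∀ u ∈ T.map (ae α (n + 1)),
        Ful 2 (fun i => φ (algebraMap ℂ Mer t * x i)) u := by
      intro u hu
      obtain ⟨u₀, hu₀, rfl⟩ := Finset.mem_map.1 hu
      have h0 := hful u₀ (hTS hu₀)
      intro z
      have h1 : ∑ i, algebraMap ℂ Mer ((ae α (n + 1)) u₀ i) * φ (algebraMap ℂ Mer t * x i) =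
          φ (algebraMap ℂ Mer t * ∑ i, algebraMap ℂ Mer (α (u₀ i)) * x i) := by
        rw [Finset.mul_sum, map_sum]
        refine Finset.sum_congr rfl fun i _ => ?_
        have h1 : (ae α (n + 1)) u₀ i = α (u₀ i) := rfl
        rw [h1, map_mul, map_mul, map_mul, AlgHom.commutes, AlgHom.commutes]
        ring
      rw [h1, hφo, hφd n (fun i => algebraMap ℂ Mer t * x i) z, PTF_om ht, PTF_dv ht]
      exact h0 (Complex.exp z)
    have hmov := hMVP (w + 2) n d (aq α Q) (fun i => aq α (A i)) hdat' _ hNC'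
    obtain ⟨P, hPirr, hPmov, hPd⟩ := hβ w d (aq α Q) (fun i => aq α (A i))
      (T.map (ae α (n + 1))) _ hyp' hβT' hfil hdiv' 2 _ hx0 (fun i => hφ _) hful' hmov
    have h3 := hU α _ P hPirr hPmov hPd
    have h4 : aq α (D₀ * X 0) = aq α D₀ * X 0 := by
      rw [aq, aq, map_mul, map_X]
    rw [hφt, h4, map_mul, h3, zero_mul]
  have h4 := PTS_comp (aq α (D₀ * X 0)) (fun i => φ (x i)) hkey e
  rw [PTF_comp] at h4
  have h5 : φ (aeval x (aq α (homogeneousComponent e (D₀ * X 0)))) =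
      aeval (fun i => φ (x i)) (aq α (homogeneousComponent e (D₀ * X 0))) := by
    rw [← AlgHom.comp_apply]
    congr 1
    refine MvPolynomial.algHom_ext fun i => ?_
    simp
  rw [← h5] at h4
  exact hinj (by rw [h4, map_zero])

end Pool.MPV
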