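import Pool.Agent.Work.MP_f82ddf_V.Interface

set_option autoImplicit false

/-! # Block UEF of THEOREM V (MP_f82ddf_nt): the hypersurface over the small field -/

open Pool.Agent.Work.MP_f82ddf_nt.DQ

namespace Pool.MPV

open MvPolynomial
open Pool.ThmP (tm)
open Pool.MPL (RX NC aq NPr Spn)

/-- The embedding `u ↦ τ ∘ u`. -/
def UEF_emb {Ω : Type} [Field Ω] (τ : Ω →+* ℂ) (n : ℕ) :
    (Fin (n + 1) → Ω) ↪ (Fin (n + 1) → ℂ) where
  toFun u i := τ (u i)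
  inj' _ _ h := funext fun i => τ.injective (congrFun h i)

lemma UEF_span {Ω : Type} [Field Ω] (τ₀ τ : Ω →+* ℂ) {n : ℕ} (S : Finset (Fin (n + 1) → Ω))
    (D : RX n) (α : ℂ ≃+* ℂ) (hα : ∀ a, α (τ₀ a) = τ a) (x : Fin (n + 1) → Mer)
    (hx : NC x) (hpow : ∀ u ∈ S, Ful 2 x (fun i => τ (u i)))
    (hD : ∀ (α : ℂ ≃+* ℂ) (x : Fin (n + 1) → Mer), NC x →
        (∀ u ∈ S.map (UEF_emb τ₀ n), Ful 2 x (fun i => α (u i))) →
        aeval x (aq α D) = 0) (E : RX n)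
    (hE : E ∈ Submodule.span ℂ
        {E : RX n | ∃ α : ℂ ≃+* ℂ, (∀ a, α (τ₀ a) = τ₀ a) ∧ E = aq α D}) :
    aeval x (aq α E) = 0 := by
  refine Submodule.span_induction (p := fun E _ => aeval x (aq α E) = 0) ?_ ?_ ?_ ?_ hE
  · rintro E ⟨β, hβ, rfl⟩
    have h1 : aq α (aq β D) = aq (β.trans α) D := by
      unfold aq
      rw [map_map]
      rfl
    rw [h1]
    refine hD (β.trans α) x hx ?_
    intro u hu
    obtain ⟨u₀, hu₀, rfl⟩ := Finset.mem_map.1 hu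
    have h2 : (fun i => (β.trans α) ((UEF_emb τ₀ n) u₀ i)) = fun i => τ (u₀ i) := by
      funext i
      change α (β (τ₀ (u₀ i))) = τ (u₀ i)
      rw [hβ, hα]
    rw [h2]
    exact hpow u₀ hu₀
  · simp [aq]
  · intro E F _ _ hE' hF'
    have h1 : aq α (E + F) = aq α E + aq α F := by simp [aq]
    rw [h1, map_add, hE', hF', add_zero]
  · intro c E _ hE'
    have h1 : aq α (c • E) = C (α c) * aq α E := by
      unfold aq
      rw [smul_eq_C_mul, map_mul, map_C]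
      rfl
    rw [h1, map_mul, hE', mul_zero]

theorem p_UEF (hPTF : Stmt_PTF) (hAUT : Pool.MPL.Stmt_AUT) (hDSE : Pool.MPL.Stmt_DSE)
    (hRKT : Pool.MPL.Stmt_RKT) : Stmt_UEF := by
  intro n c hn
  obtain ⟨N₁, hN₁⟩ := hPTF n c hn
  refine ⟨N₁, ?_⟩
  intro Ω _ _ _ S hS hSpn hcard
  by_cases hne : Nonempty (Ω →+* ℂ)
  · obtain ⟨τ₀⟩ := hne
    obtain ⟨hR1, hR2⟩ := hRKT Ω ℂ τ₀ n
    obtain ⟨e, D, he, hDh, hD0, hD⟩ := hN₁ (S.map (UEF_emb τ₀ n)) (by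
      intro u hu v hv huv
      obtain ⟨u₀, hu₀, rfl⟩ := Finset.mem_map.1 hu
      obtain ⟨v₀, hv₀, rfl⟩ := Finset.mem_map.1 hv
      have h1 : u₀ ≠ v₀ := by
        rintro rfl
        exact huv rfl
      exact hR2 u₀ v₀ (hS u₀ hu₀ v₀ hv₀ h1)) (by
      intro T hT hcT v hv
      obtain ⟨T₀, hT₀, rfl⟩ := Finset.subset_map_iff.1 hT
      rw [Finset.card_map] at hcT
      refine hR1 T₀ (fun w hw => hSpn T₀ hT₀ hcT w hw) v ?_
      intro u hu
      rw [← hv (UEF_emb τ₀ n u) (Finset.mem_map_of_mem _ hu)]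
      refine Finset.sum_congr rfl fun i _ => ?_
      rw [mul_comm]
      rfl) (by
      rw [Finset.card_map]
      exact hcard)
    obtain ⟨D₀, hD₀0, hD₀h, hspan⟩ := hDSE Ω τ₀ n e D hD0 hDh
    refine ⟨e, D₀, he, hD₀h, hD₀0, ?_⟩
    intro τ x hx hpow
    obtain ⟨α, hα⟩ := hAUT Ω τ₀ τ
    have h1 := UEF_span τ₀ τ S D α hα x hx hpow hD (map τ₀ D₀) hspan
    have h2 : aq α (map τ₀ D₀) = map τ D₀ := by
      unfold aq
      rw [map_map]
      have h3 : (α : ℂ →+* ℂ).comp τ₀ = τ := by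
        ext a
        exact hα a
      rw [h3]
    rw [h2, aeval_def, eval₂_map] at h1
    exact h1
  · refine ⟨1, X 0, le_refl 1, isHomogeneous_X _ _, X_ne_zero _, ?_⟩
    intro τ
    exact absurd ⟨τ⟩ hne

end Pool.MPV
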