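import Pool.Agent.Work.MP_f82ddf_U.All
import Pool.Agent.Work.MP_f82ddf_P.All
import Pool.Agent.Work.MP_f82ddf_V.B_CORF
import Pool.Agent.Work.MP_f82ddf_V.B_CRF
import Pool.Agent.Work.MP_f82ddf_V.B_DIF
import Pool.Agent.Work.MP_f82ddf_V.B_DRF
import Pool.Agent.Work.MP_f82ddf_V.B_EXF
import Pool.Agent.Work.MP_f82ddf_V.B_FNV
import Pool.Agent.Work.MP_f82ddf_V.B_FVG
import Pool.Agent.Work.MP_f82ddf_V.B_FVS
import Pool.Agent.Work.MP_f82ddf_V.B_GNF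
import Pool.Agent.Work.MP_f82ddf_V.B_LGF
import Pool.Agent.Work.MP_f82ddf_V.B_MPF
import Pool.Agent.Work.MP_f82ddf_V.B_NOF
import Pool.Agent.Work.MP_f82ddf_V.B_ORF
import Pool.Agent.Work.MP_f82ddf_V.B_PTF
import Pool.Agent.Work.MP_f82ddf_V.B_UEF
import Pool.Agent.Work.MP_f82ddf_V.B_UNB

/-!
# THEOREM V: assembly
-/

set_option autoImplicit false

namespace Pool.MPV

open Pool.ThmM.Chow Pool.MPL

theorem all_NOF : Stmt_NOF := p_NOF Pool.ThmM.all_VAL Pool.ThmM.all_GAU q_LSB q_FNC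
theorem all_CORF : Stmt_CORF := p_CORF q_CHP q_PLW q_PFA q_FNC q_FCH q_PHG q_LBD q_HTE q_FAC
    q_COP all_NOF q_GRO q_FTL q_NDC q_EXE q_NVH q_COU q_END q_PRJ Pool.ThmM.all_VAL
theorem all_DRF : Stmt_DRF := p_DRF all_CORF Pool.ThmM.all_TRA
theorem all_UNB : Stmt_UNB := p_UNB all_MIR all_DSC all_ULN all_UIR
    Pool.Agent.Work.MP_f82ddf_M5.stmt_FUN
theorem all_EXF : Stmt_EXF := p_EXF Pool.ThmM.all_REP Pool.ThmM.all_ALG Pool.ThmM.all_ORD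
    Pool.ThmM.all_VAL
theorem all_PTF : Stmt_PTF := p_PTF Pool.ThmM0.all_T3 all_DRF all_UNB all_TRP all_EXF all_MVP
theorem all_UEF : Stmt_UEF := p_UEF all_PTF all_AUT all_DSE all_RKT
theorem all_ORF : Stmt_ORF := p_ORF Pool.ThmP.all_NUL Pool.ThmP.all_MPT Pool.ThmM.all_VAL
    Pool.ThmM.all_ORD q_OZE
theorem all_MPF : Stmt_MPF := p_MPF all_UEF all_SLO Pool.ThmP.all_MPT all_ORF Pool.ThmP.all_FIB
    Pool.ThmM0.stmt_CST
theorem all_DIF : Stmt_DIF := p_DIF all_MPF Pool.ThmP.all_MPT Pool.ThmP.all_FIB Pool.ThmP.p_TRX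
    Pool.ThmM0.stmt_HOMR
/-- THEOREM V: one hypersurface for all the entire curves in all the varieties. -/
theorem all_V : Stmt_V := p_FNV all_MPF Pool.ThmM0.stmt_MREL
/-- THEOREM VS: curves and surfaces. -/
theorem all_VS : Stmt_VS := p_FVS all_DIF (Pool.ThmM0.stmt_PAI Pool.ThmM0.stmt_DHO)
    Pool.MCL.all_P6C
theorem all_CRF : Stmt_CRF := p_CRF all_CORF Pool.ThmM.all_TRA
theorem all_LGF : Stmt_LGF := p_LGF all_CRF Pool.ThmM0.stmt_CH1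
theorem all_GNF : Stmt_GNF := p_GNF Pool.ThmP.all_MPT all_ORF Pool.ThmP.all_FIB Pool.ThmP.p_BAS
    all_LGF Pool.ThmM0.stmt_NHC Pool.ThmM0.stmt_PUL Pool.ThmM0.stmt_CST all_EXF Pool.ThmM.all_ORD
    Pool.ThmM.all_VAL
/-- THEOREM VG: generic nodes. -/
theorem all_VG : Stmt_VG := p_FVG all_GNF

end Pool.MPV
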