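import Pool.Agent.Work.MP_f82ddf_V.Interface

/-!
# Theorem V, block GNF
-/

set_option autoImplicit false

namespace Pool.MPV

open MvPolynomial Finset Pool.Agent.Work.MP_f82ddf_nt Pool.Agent.Work.MP_f82ddf_nt.DQ Pool.ThmM
  Pool.ThmM0
open Pool.ThmP (Mor OnX OnK tm)

private lemma GNF_hom_smul {σ : Type} {n : ℕ} {p : MvPolynomial σ ℂ} (hp : p.IsHomogeneous n)
    (c : ℂ) (t : σ → ℂ) : eval (c • t) p = c ^ n * eval t p := by
  rw [eval_eq, eval_eq, Finset.mul_sum]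
  refine Finset.sum_congr rfl fun s hs => ?_
  have h1 : s.degree = n := by
    by_contra h
    exact (mem_support_iff.1 hs) (hp.coeff_eq_zero h)
  rw [← h1]
  have h2 : ∏ i ∈ s.support, (c • t) i ^ s i = c ^ s.degree * ∏ i ∈ s.support, t i ^ s i := by
    simp only [Pi.smul_apply, smul_eq_mul, mul_pow, Finset.prod_mul_distrib]
    congr 1
    rw [Finset.prod_pow_eq_pow_sum]
    rfl
  rw [h2]
  ring

/-- a maximal set of pairwise non proportional vectors in a finite family -/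
private lemma GNF_maxset {ρ M : ℕ} (u : Fin M → Fin (ρ + 1) → ℂ) :
    ∃ S : Finset (Fin (ρ + 1) → ℂ), (∀ v ∈ S, ∀ v' ∈ S, v ≠ v' → NonProp v v') ∧
      (∀ v ∈ S, ∃ j, u j = v) ∧ (∀ j, u j ≠ 0 → ∃ s ∈ S, ∃ c : ℂ, u j = c • s) := by
  classical
  set V : Finset (Fin (ρ + 1) → ℂ) := (Finset.univ.image u).filter (fun v => v ≠ 0) with hV
  set F : Finset (Finset (Fin (ρ + 1) → ℂ)) :=
    V.powerset.filter (fun S => ∀ v ∈ S, ∀ v' ∈ S, v ≠ v' → NonProp v v') with hF
  have hne : F.Nonempty := ⟨∅, by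
    rw [hF, Finset.mem_filter]
    exact ⟨Finset.empty_mem_powerset _, by simp⟩⟩
  obtain ⟨S, hS, hmax⟩ := Finset.exists_max_image F Finset.card hne
  rw [hF, Finset.mem_filter, Finset.mem_powerset] at hS
  obtain ⟨hSV, hSp⟩ := hS
  have hS0 : ∀ s ∈ S, s ≠ 0 := fun s hs => (Finset.mem_filter.1 (hSV hs)).2
  refine ⟨S, hSp, ?_, ?_⟩
  · intro v hv
    have h1 := (Finset.mem_filter.1 (hSV hv)).1
    obtain ⟨j, -, hj⟩ := Finset.mem_image.1 h1
    exact ⟨j, hj⟩
  intro j hj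
  by_contra hcon
  push Not at hcon
  have hnot : u j ∉ S := fun h => hcon (u j) h 1 (one_smul _ _).symm
  have hins : insert (u j) S ∈ F := by
    rw [hF, Finset.mem_filter, Finset.mem_powerset]
    refine ⟨?_, ?_⟩
    · intro v hv
      rcases Finset.mem_insert.1 hv with rfl | hv
      · rw [hV, Finset.mem_filter]
        exact ⟨Finset.mem_image_of_mem _ (Finset.mem_univ _), hj⟩
      · exact hSV hv
    · have hnp : ∀ s ∈ S, ∀ a b : ℂ, a • u j = b • s → a = 0 ∧ b = 0 := by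
        intro s hs a b hab
        have ha : a = 0 := by
          by_contra ha
          apply hcon s hs (a⁻¹ * b)
          rw [mul_smul, ← hab, smul_smul, inv_mul_cancel₀ ha, one_smul]
        refine ⟨ha, ?_⟩
        rw [ha, zero_smul] at hab
        rcases smul_eq_zero.1 hab.symm with h | h
        · exact h
        · exact absurd h (hS0 s hs)
      intro v hv v' hv' hvv'
      rcases Finset.mem_insert.1 hv with rfl | hv
      · rcases Finset.mem_insert.1 hv' with rfl | hv'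
        · exact absurd rfl hvv'
        · exact hnp v' hv'
      · rcases Finset.mem_insert.1 hv' with rfl | hv'
        · intro a b hab
          have := hnp v hv b a hab.symm
          exact ⟨this.2, this.1⟩
        · exact hSp v hv v' hv' hvv'
  have h1 := hmax _ hins
  rw [Finset.card_insert_of_notMem hnot] at h1
  omega

/-- the order of a tuple is at most the order of each entry -/
private lemma GNF_dv_le (hORD : Pool.ThmM.Stmt_ORD) (hVAL : Pool.ThmM.Stmt_VAL) {m : ℕ}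
    (c : Fin m → Mer) (hc : c ≠ 0) (z : ℂ) (i : Fin m) :
    ((dv c z : ℤ) : WithTop ℤ) ≤ om (c i) z := by
  by_cases h : c i = 0
  · rw [((hVAL z).2.2.1 (c i)).2 h]
    exact le_top
  · rw [(hVAL z).2.2.2.2.1 (c i) h]
    exact WithTop.coe_le_coe.2 (((hORD (Fin m) c).2 hc z).1 i h)

private lemma GNF_dv_eq (hORD : Pool.ThmM.Stmt_ORD) (hVAL : Pool.ThmM.Stmt_VAL) {m : ℕ}
    (c : Fin m → Mer) (hc : c ≠ 0) (z : ℂ) :
    ∃ i, om (c i) z = ((dv c z : ℤ) : WithTop ℤ) := by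
  obtain ⟨i, hi, h⟩ := ((hORD (Fin m) c).2 hc z).2
  refine ⟨i, ?_⟩
  rw [(hVAL z).2.2.2.2.1 (c i) hi, h]

private lemma GNF_sum_le (hVAL : Pool.ThmM.Stmt_VAL) {m : ℕ} (b : Fin m → ℂ) (c : Fin m → Mer)
    (z : ℂ) (d : WithTop ℤ) (h : ∀ i, d ≤ om (c i) z) :
    ∀ s : Finset (Fin m), d ≤ om (∑ i ∈ s, algebraMap ℂ Mer (b i) * c i) z := by
  intro s
  induction s using Finset.induction_on with
  | empty =>
    rw [Finset.sum_empty, ((hVAL z).2.2.1 0).2 rfl]
    exact le_top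
  | insert i s his ih =>
    rw [Finset.sum_insert his]
    refine le_trans (le_min ?_ ih) ((hVAL z).2.1 _ _)
    by_cases hb : b i = 0
    · rw [hb, map_zero, zero_mul, ((hVAL z).2.2.1 0).2 rfl]
      exact le_top
    · rw [(hVAL z).1, (hVAL z).2.2.2.1 (b i) hb, zero_add]
      exact h i

/-- the orders of a tuple and of a basis among its entries are the same -/
private lemma GNF_dv (hORD : Pool.ThmM.Stmt_ORD) (hVAL : Pool.ThmM.Stmt_VAL) {n ρ : ℕ}
    (y : Fin (n + 1) → Mer) (ι : Fin (ρ + 1) → Fin (n + 1))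
    (b : Matrix (Fin (n + 1)) (Fin (ρ + 1)) ℂ)
    (hyb : ∀ c, y c = ∑ i, algebraMap ℂ Mer (b c i) * y (ι i))
    (hx : (fun i => y (ι i)) ≠ 0) (z : ℂ) : dv (fun i => y (ι i)) z = dv y z := by
  have hy : y ≠ 0 := by
    intro h
    apply hx
    funext i
    exact congrFun h (ι i)
  apply le_antisymm
  · obtain ⟨c, hc⟩ := GNF_dv_eq hORD hVAL y hy z
    have h1 : ((dv (fun i => y (ι i)) z : ℤ) : WithTop ℤ) ≤ om (y c) z := by
      rw [hyb c]
      exact GNF_sum_le hVAL (fun i => b c i) (fun i => y (ι i)) z _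
        (fun i => GNF_dv_le hORD hVAL (fun i => y (ι i)) hx z i) Finset.univ
    rw [hc] at h1
    exact WithTop.coe_le_coe.1 h1
  · obtain ⟨i, hi⟩ := GNF_dv_eq hORD hVAL (fun i => y (ι i)) hx z
    have h1 := GNF_dv_le hORD hVAL y hy z (ι i)
    rw [hi] at h1
    exact WithTop.coe_le_coe.1 h1

/-- GNF -/
theorem p_GNF (hMPT : Pool.ThmP.Stmt_MPT) (hORF : Stmt_ORF) (hFIB : Pool.ThmP.Stmt_FIB)
    (hBAS : Pool.ThmP.Stmt_BAS) (hLGF : Stmt_LGF) (hNHC : Pool.ThmM0.Stmt_NHC)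
    (hPUL : Pool.ThmM0.Stmt_PUL) (hCST : Pool.ThmM0.Stmt_CST) (hEXF : Stmt_EXF)
    (hORD : Pool.ThmM.Stmt_ORD) (hVAL : Pool.ThmM.Stmt_VAL) : Stmt_GNF := by
  classical
  intro n
  let β : ℕ → ℕ := fun ρ => if h : 1 ≤ ρ then (hLGF ρ h).choose else 0
  refine ⟨max 1 ((Finset.range (n + 1)).sup β), ?_⟩
  intro N K Ω _ _ _ _ m S hS g l hfin hno hdiv τ x hx i₀ i hi₀
  have hx0 : x ≠ 0 := fun h => hi₀ (congrFun h i₀)
  obtain ⟨s, hs, c₁, hc₁⟩ := (hMPT K Ω Mer m n S g (tm τ) x hx).1 hx0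
  set y : Fin (n + 1) → Mer := fun c => eval₂ (tm τ) x (s c) with hy
  have hy0 : y ≠ 0 := fun h => hc₁ (congrFun h c₁)
  obtain ⟨ρ, ι, b, hρ, hlin, hyb, hcols⟩ := hBAS n y hy0
  rcases Nat.eq_zero_or_pos ρ with h0 | hρ1
  · subst h0
    have hι : y (ι 0) ≠ 0 := hlin.ne_zero 0
    have h1 := hFIB K Ω m n S g hS hfin τ x hx s hs (ι 0) hι i i₀ hi₀
    obtain ⟨z, hz⟩ := hCST n y (ι 0) hι (fun j => ⟨b j 0, by
      rw [hyb j, Fin.sum_univ_one]⟩) (x i / x i₀) h1
    refine ⟨z, ?_⟩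
    rw [← hz, div_mul_cancel₀ _ hi₀]
  · exfalso
    obtain ⟨φ, hφ, hφom, hφdv⟩ := hEXF
    have hinj : Function.Injective φ := φ.toRingHom.injective
    have hx'0 : (fun i => y (ι i)) ≠ 0 := fun h => hlin.ne_zero 0 (congrFun h 0)
    -- the nodes
    set u : Fin (N + 1) → Fin (ρ + 1) → ℂ := fun j i => ∑ c, τ (l j c) * b c i with hu
    have hzu : ∀ j, ∑ c, algebraMap ℂ Mer (τ (l j c)) * y c =
        ∑ i, algebraMap ℂ Mer (u j i) * y (ι i) := by
      intro j
      have h1 : ∀ c, algebraMap ℂ Mer (τ (l j c)) * y c =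
          ∑ i, algebraMap ℂ Mer (τ (l j c) * b c i) * y (ι i) := by
        intro c
        conv_lhs => rw [hyb c]
        rw [Finset.mul_sum]
        refine Finset.sum_congr rfl fun i _ => ?_
        rw [map_mul, mul_assoc]
      rw [Finset.sum_congr rfl fun c _ => h1 c, Finset.sum_comm]
      refine Finset.sum_congr rfl fun i _ => ?_
      rw [hu]
      change _ = algebraMap ℂ Mer (∑ c, τ (l j c) * b c i) * y (ι i)
      rw [map_sum, Finset.sum_mul]
    -- the multiplicities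
    have hful : ∀ j, Ful 2 (fun i => φ (y (ι i))) (u j) := by
      intro j z
      have h1 := hORF K Ω m n 2 S g hS τ x hx s hs ⟨c₁, hc₁⟩ (l j) (hdiv j) (Complex.exp z)
      have h2 : ∑ i, algebraMap ℂ Mer (u j i) * φ (y (ι i)) =
          φ (∑ c, algebraMap ℂ Mer (τ (l j c)) * y c) := by
        rw [hzu j, map_sum]
        refine Finset.sum_congr rfl fun i _ => ?_
        rw [map_mul, AlgHom.commutes]
      rw [h2, hφom, hφdv ρ (fun i => y (ι i)) z, GNF_dv hORD hVAL y ι b hyb hx'0]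
      exact h1
    have hno' := hNHC Ω ℂ τ (N + 1) n _ l hno
    have hno3 : NoHypersurface (max 1 ((Finset.range (n + 1)).sup β)) u :=
      hPUL (N + 1) n ρ _ _ b hno' hcols
    obtain ⟨S₁, hS1, hS2, hS3⟩ := GNF_maxset u
    obtain ⟨j₁, hj₁⟩ := hno3 1 (X 0) (le_max_left _ _) (isHomogeneous_X _ _) (X_ne_zero _)
    rw [eval_X] at hj₁
    have huj₁ : u j₁ ≠ 0 := fun h => hj₁ (congrFun h 0)
    obtain ⟨s₀, hs₀, c₀, hc₀⟩ := hS3 j₁ huj₁
    have hmul : ∀ j, ∃ s ∈ S₁, ∃ c : ℂ, u j = c • s := by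
      intro j
      by_cases hj : u j = 0
      · exact ⟨s₀, hs₀, 0, by rw [hj, zero_smul]⟩
      · exact hS3 j hj
    have hβ : (hLGF ρ hρ1).choose ≤ max 1 ((Finset.range (n + 1)).sup β) := by
      have h1 : β ρ ≤ (Finset.range (n + 1)).sup β :=
        Finset.le_sup (f := β) (Finset.mem_range.2 (by omega))
      have h2 : β ρ = (hLGF ρ hρ1).choose := dif_pos hρ1
      rw [← h2]
      exact h1.trans (le_max_right _ _)
    refine (hLGF ρ hρ1).choose_spec S₁ hS1 ?_ (fun i => φ (y (ι i))) ?_ ?_ ?_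
    · intro e G he hG hG0
      by_contra hcon
      push Not at hcon
      obtain ⟨j, hj⟩ := hno3 e G (he.trans hβ) hG hG0
      apply hj
      obtain ⟨s', hs', c, hc⟩ := hmul j
      rw [hc, GNF_hom_smul hG, hcon s' hs', mul_zero]
    · have h1 := hlin.map' φ.toLinearMap (by
        rw [LinearMap.ker_eq_bot]
        exact hinj)
      exact h1
    · intro i
      exact hφ _
    · intro v hv
      obtain ⟨j, rfl⟩ := hS2 v hv
      exact hful j

end Pool.MPV
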